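import Mathlib

/-!
# [H56 DI MIN] Minimal homeomorphisms

`IsMin T`: the closed invariant sets of `T` are trivial.  `sk T g` is the skew product
`(x, z) ↦ (T x, g x z)`.

PROOFS.
`min_fwd`: `F` closed nonempty with `T F ⊆ F`.  Let `E = ⋂ n, (T^[n]) '' F`, a decreasing intersection of
nonempty compact sets (`IsCompact.nonempty_iInter_of_sequence_nonempty_isCompact_isClosed`), so nonempty and
closed, and `T '' E = E` (`T` is injective: `Set.image_iInter`; `T '' (T^[n] '' F) = T^[n+1] '' F`, and the term `n = 0` is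
superfluous since the sequence is decreasing).  So `E = univ` and `F ⊇ E`.
`min_back`: let `F` be the closure of `{w | ∃ n ≥ N, T^[n] w = z}` = closure of the backward orbit from time `N` on;
this set is mapped into itself by `T.symm`, and so is `F` (continuity).  `T.symm` is minimal as well (same
closed invariant sets), so `F = univ` by `min_fwd` for `T.symm`, and `U` meets the set by density.
`min_aper`: if `T^[n] x = x` then the finite set `{T^[j] x | j < n}` is closed, nonempty and forward invariant, so it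
is `univ` by `min_fwd`; but `B` is infinite.
-/

set_option autoImplicit false

open Topology Filter

namespace Pool.Agent.H56.DI

/-- minimal homeomorphisms: the closed invariant sets are trivial -/
def IsMin {B : Type*} [TopologicalSpace B] (T : B ≃ₜ B) : Prop :=
  ∀ F : Set B, IsClosed F → ⇑T '' F = F → F = ∅ ∨ F = Set.univ

/-- the skew product -/
def sk {B S : Type*} (T : B → B) (g : B → S → S) (p : B × S) : B × S := (T p.1, g p.1 p.2)

theorem min_fwd {B : Type*} [TopologicalSpace B] [CompactSpace B] [T2Space B] {T : B ≃ₜ B}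
    (hT : IsMin T) {F : Set B} (hF : IsClosed F) (hne : F.Nonempty) (h : ∀ x ∈ F, T x ∈ F) :
    F = Set.univ := by
  have hdec : ∀ n, (⇑T)^[n + 1] '' F ⊆ (⇑T)^[n] '' F := by
    rintro n _ ⟨x, hx, rfl⟩
    exact ⟨T x, h x hx, (Function.iterate_succ_apply _ _ _).symm⟩
  have hcpt : ∀ n, IsCompact ((⇑T)^[n] '' F) := fun n =>
    hF.isCompact.image (T.continuous.iterate n)
  have hE : (⋂ n, (⇑T)^[n] '' F).Nonempty :=
    IsCompact.nonempty_iInter_of_sequence_nonempty_isCompact_isClosed
      (fun n => (⇑T)^[n] '' F) hdec (fun n => hne.image _) (hcpt 0)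
      (fun n => (hcpt n).isClosed)
  have hinv : ⇑T '' (⋂ n, (⇑T)^[n] '' F) = ⋂ n, (⇑T)^[n] '' F := by
    rw [Set.image_iInter T.bijective]
    have h1 : ∀ n, ⇑T '' ((⇑T)^[n] '' F) = (⇑T)^[n + 1] '' F := by
      intro n
      rw [← Set.image_comp, Function.iterate_succ']
    simp_rw [h1]
    apply Set.Subset.antisymm
    · exact Set.iInter_mono hdec
    · exact Set.subset_iInter fun n => Set.iInter_subset _ (n + 1)
  have hsub : (⋂ n, (⇑T)^[n] '' F) ⊆ F := by
    intro x hx
    obtain ⟨y, hy, hyx⟩ := Set.mem_iInter.1 hx 0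
    rw [← hyx]
    exact hy
  rcases hT _ (isClosed_iInter fun n => (hcpt n).isClosed) hinv with h0 | h1
  · rw [h0] at hE
    exact absurd hE Set.not_nonempty_empty
  · rw [h1] at hsub
    exact Set.univ_subset_iff.1 hsub

theorem min_back {B : Type*} [TopologicalSpace B] [CompactSpace B] [T2Space B] {T : B ≃ₜ B}
    (hT : IsMin T) {U : Set B} (hU : IsOpen U) (hne : U.Nonempty) (z : B) (N : ℕ) :
    ∃ n ≥ N, ∃ w ∈ U, (⇑T)^[n] w = z := by
  have hTs : IsMin T.symm := by
    intro F hF h
    refine hT F hF ?_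
    conv_lhs => rw [← h]
    rw [← Set.image_comp]
    have h1 : ⇑T ∘ ⇑T.symm = id := by
      funext x
      exact T.apply_symm_apply x
    rw [h1, Set.image_id]
  obtain ⟨A, hA⟩ : ∃ A : Set B, A = {w | ∃ n ≥ N, (⇑T)^[n] w = z} := ⟨_, rfl⟩
  have hAne : A.Nonempty := by
    refine ⟨(⇑T.symm)^[N] z, ?_⟩
    rw [hA]
    refine ⟨N, le_rfl, ?_⟩
    have h1 : Function.LeftInverse (⇑T) (⇑T.symm) := T.apply_symm_apply
    exact h1.iterate N z
  have hAf : ∀ x ∈ A, T.symm x ∈ A := by
    intro x hx
    rw [hA] at hx ⊢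
    obtain ⟨n, hn, hx⟩ := hx
    refine ⟨n + 1, by omega, ?_⟩
    rw [Function.iterate_succ_apply, T.apply_symm_apply]
    exact hx
  have hcl : closure A = Set.univ := by
    refine min_fwd hTs isClosed_closure hAne.closure fun x hx => ?_
    exact map_mem_closure T.symm.continuous hx hAf
  have hd : Dense A := dense_iff_closure_eq.2 hcl
  obtain ⟨w, hwU, hwA⟩ := hd.inter_open_nonempty U hU hne
  rw [hA] at hwA
  obtain ⟨n, hn, h1⟩ := hwA
  exact ⟨n, hn, w, hwU, h1⟩

theorem min_aper {B : Type*} [TopologicalSpace B] [CompactSpace B] [T2Space B] [Infinite B]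
    {T : B ≃ₜ B} (hT : IsMin T) (x : B) (n : ℕ) (hn : 0 < n) : (⇑T)^[n] x ≠ x := by
  intro hx
  have hfin : ((fun j => (⇑T)^[j] x) '' (Set.Iio n)).Finite := (Set.finite_Iio n).image _
  have huniv : ((fun j => (⇑T)^[j] x) '' (Set.Iio n)) = Set.univ := by
    refine min_fwd hT hfin.isClosed ⟨x, 0, hn, rfl⟩ ?_
    rintro _ ⟨j, hj, rfl⟩
    by_cases hjn : j + 1 < n
    · refine ⟨j + 1, hjn, ?_⟩
      show (⇑T)^[j + 1] x = T ((⇑T)^[j] x)
      rw [Function.iterate_succ_apply']
    · have h1 : j + 1 = n := by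
        have : j < n := hj
        omega
      refine ⟨0, hn, ?_⟩
      show (⇑T)^[0] x = T ((⇑T)^[j] x)
      rw [← Function.iterate_succ_apply' (⇑T) j x]
      show x = (⇑T)^[j + 1] x
      rw [h1, hx]
  rw [huniv] at hfin
  exact Set.infinite_univ hfin

end Pool.Agent.H56.DI
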