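import Mathlib
import Pool.Agent.H56.DI.Min

/-!
# [H56 DI ATT] The attractor of a uniformly contracted invariant set

`Attr T g Λ δ C l`: `Λ` is a closed forward invariant set of the skew product, and the `δ`-balls (in the fibres) around
its points are contracted like `C l^n`.  `cor T g Λ = ⋂ n, (sk T g)^[n] '' Λ`.

PROOFS.  `sk_cont`: `Continuous.prodMk`.  `sk_iter_fst`: induction.
`cor_closed`: the images of the compact set `Λ` under continuous maps are compact.  `cor_sub`: `n = 0`.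
`cor_fwd`: if `p = (sk)^[n] q`, `q ∈ Λ`, then `sk p = (sk)^[n] (sk q)` and `sk q ∈ Λ`.
`cor_surj`: for `p ∈ cor` the sets `{q ∈ (sk)^[n] '' Λ | sk q = p}` are compact, nonempty (`p = (sk)^[n+1] q'`,
take `q = (sk)^[n] q'`) and decreasing (`(sk)^[n+1] '' Λ ⊆ (sk)^[n] '' Λ`), so their intersection is nonempty
(`IsCompact.nonempty_iInter_of_sequence_nonempty_isCompact_isClosed`).
`cor_back`: iterate `cor_surj`.
`cor_proj`: `cor` is nonempty (decreasing nonempty compact sets); its projection to `B` is compact, so closed,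
nonempty and forward invariant (`cor_fwd`); `min_fwd`.
`cor_usc`: the projection of the compact set `{p ∈ cor | p.2 ∉ O}` is closed and does not contain `x`.
-/

set_option autoImplicit false

open Topology Filter

namespace Pool.Agent.H56.DI

variable {B S : Type*} [TopologicalSpace B] [CompactSpace B] [T2Space B] [MetricSpace S]
  [CompactSpace S] {T : B ≃ₜ B} {g : B → S → S} {Λ : Set (B × S)} {δ C l : ℝ}

/-- see above -/
structure Attr (T : B ≃ₜ B) (g : B → S → S) (Λ : Set (B × S)) (δ C l : ℝ) : Prop where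
  cont : Continuous fun p : B × S => g p.1 p.2
  closed : IsClosed Λ
  fwd : ∀ p ∈ Λ, sk T g p ∈ Λ
  δ0 : 0 < δ
  l0 : 0 < l
  l1 : l < 1
  contr : ∀ p ∈ Λ, ∀ y, dist y p.2 < δ → ∀ n,
    dist ((sk T g)^[n] (p.1, y)).2 ((sk T g)^[n] p).2 ≤ C * l ^ n

/-- the attractor -/
def cor (T : B ≃ₜ B) (g : B → S → S) (Λ : Set (B × S)) : Set (B × S) :=
  ⋂ n : ℕ, (sk T g)^[n] '' Λ

omit [CompactSpace B] [T2Space B] [CompactSpace S] in
theorem sk_cont (h : Continuous fun p : B × S => g p.1 p.2) : Continuous (sk T g) := by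
  exact (T.continuous.comp continuous_fst).prodMk h

omit [TopologicalSpace B] [CompactSpace B] [T2Space B] [MetricSpace S] [CompactSpace S] in
theorem sk_iter_fst (T : B → B) (g : B → S → S) (n : ℕ) (p : B × S) :
    ((sk T g)^[n] p).1 = T^[n] p.1 := by
  induction n with
  | zero => rfl
  | succ n ih =>
    rw [Function.iterate_succ_apply', Function.iterate_succ_apply', ← ih]
    rfl

theorem att_dec (h : Attr T g Λ δ C l) (n : ℕ) :
    (sk T g)^[n + 1] '' Λ ⊆ (sk T g)^[n] '' Λ := by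
  rintro _ ⟨x, hx, rfl⟩
  exact ⟨sk T g x, h.fwd x hx, (Function.iterate_succ_apply _ _ _).symm⟩

theorem att_cpt (h : Attr T g Λ δ C l) (n : ℕ) : IsCompact ((sk T g)^[n] '' Λ) :=
  h.closed.isCompact.image ((sk_cont h.cont).iterate n)

theorem cor_closed (h : Attr T g Λ δ C l) : IsClosed (cor T g Λ) := by
  exact isClosed_iInter fun n => (att_cpt h n).isClosed

theorem cor_sub : cor T g Λ ⊆ Λ := by
  intro p hp
  obtain ⟨q, hq, hqp⟩ := Set.mem_iInter.1 hp 0
  rw [← hqp]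
  exact hq

theorem cor_fwd (h : Attr T g Λ δ C l) {p : B × S} (hp : p ∈ cor T g Λ) :
    sk T g p ∈ cor T g Λ := by
  refine Set.mem_iInter.2 fun n => ?_
  obtain ⟨q, hq, hqp⟩ := Set.mem_iInter.1 hp n
  refine ⟨sk T g q, h.fwd q hq, ?_⟩
  rw [← Function.iterate_succ_apply, Function.iterate_succ_apply', hqp]

theorem cor_surj (h : Attr T g Λ δ C l) {p : B × S} (hp : p ∈ cor T g Λ) :
    ∃ q ∈ cor T g Λ, sk T g q = p := by
  have hK : (⋂ n, ((sk T g)^[n] '' Λ ∩ {q | sk T g q = p})).Nonempty := by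
    refine IsCompact.nonempty_iInter_of_sequence_nonempty_isCompact_isClosed
      (fun n => (sk T g)^[n] '' Λ ∩ {q | sk T g q = p})
      (fun n => Set.inter_subset_inter_left _ (att_dec h n)) (fun n => ?_)
      ((att_cpt h 0).inter_right (isClosed_eq (sk_cont h.cont) continuous_const))
      (fun n => (att_cpt h n).isClosed.inter
        (isClosed_eq (sk_cont h.cont) continuous_const))
    obtain ⟨q, hq, hqp⟩ := Set.mem_iInter.1 hp (n + 1)
    refine ⟨(sk T g)^[n] q, ⟨q, hq, rfl⟩, ?_⟩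
    show sk T g ((sk T g)^[n] q) = p
    rw [← Function.iterate_succ_apply' (sk T g) n q]
    exact hqp
  obtain ⟨q, hq⟩ := hK
  refine ⟨q, Set.mem_iInter.2 fun n => (Set.mem_iInter.1 hq n).1, (Set.mem_iInter.1 hq 0).2⟩

theorem cor_back (h : Attr T g Λ δ C l) {p : B × S} (hp : p ∈ cor T g Λ) (n : ℕ) :
    ∃ q ∈ cor T g Λ, (sk T g)^[n] q = p := by
  induction n with
  | zero => exact ⟨p, hp, rfl⟩
  | succ n ih =>
    obtain ⟨q, hq, hqp⟩ := ih
    obtain ⟨q', hq', hqq⟩ := cor_surj h hq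
    refine ⟨q', hq', ?_⟩
    rw [Function.iterate_succ_apply, hqq, hqp]

theorem cor_proj (h : Attr T g Λ δ C l) (hT : IsMin T) (hne : Λ.Nonempty) (x : B) :
    ∃ z, (x, z) ∈ cor T g Λ := by
  have hcne : (cor T g Λ).Nonempty :=
    IsCompact.nonempty_iInter_of_sequence_nonempty_isCompact_isClosed
      (fun n => (sk T g)^[n] '' Λ) (att_dec h) (fun n => hne.image _) (att_cpt h 0)
      (fun n => (att_cpt h n).isClosed)
  have huniv : Prod.fst '' (cor T g Λ) = Set.univ := by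
    refine min_fwd hT ((cor_closed h).isCompact.image continuous_fst).isClosed
      (hcne.image _) ?_
    rintro _ ⟨p, hp, rfl⟩
    exact ⟨sk T g p, cor_fwd h hp, rfl⟩
  have hx : x ∈ Prod.fst '' (cor T g Λ) := by
    rw [huniv]
    exact Set.mem_univ x
  obtain ⟨p, hp, rfl⟩ := hx
  exact ⟨p.2, hp⟩

theorem cor_usc (h : Attr T g Λ δ C l) (x : B) {O : Set S} (hO : IsOpen O)
    (hx : ∀ z, (x, z) ∈ cor T g Λ → z ∈ O) :
    ∃ U : Set B, IsOpen U ∧ x ∈ U ∧ ∀ x' ∈ U, ∀ z, (x', z) ∈ cor T g Λ → z ∈ O := by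
  have hcl : IsClosed (cor T g Λ ∩ {p : B × S | p.2 ∈ Oᶜ}) :=
    (cor_closed h).inter (hO.isClosed_compl.preimage continuous_snd)
  have hcl2 : IsClosed (Prod.fst '' (cor T g Λ ∩ {p : B × S | p.2 ∈ Oᶜ})) :=
    (hcl.isCompact.image continuous_fst).isClosed
  refine ⟨(Prod.fst '' (cor T g Λ ∩ {p : B × S | p.2 ∈ Oᶜ}))ᶜ, hcl2.isOpen_compl, ?_, ?_⟩
  · rintro ⟨p, ⟨hp, hpO⟩, rfl⟩
    exact hpO (hx p.2 hp)
  · intro x' hx' z hz
    by_contra hzO
    exact hx' ⟨(x', z), ⟨hz, hzO⟩, rfl⟩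

end Pool.Agent.H56.DI
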