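import Mathlib
import Pool.Agent.H56.DI.Att

/-!
# [H56 DI COV] Cardinality of the fibres of the attractor

`CovBy A δ k`: over some nonempty open set the fibres of `A` are covered by `k` sets of diameter `< δ`.

PROOFS.
`cov_card`: let `z ∈ B`.  For every `N` there are `n ≥ N` and `w ∈ U` with `T^[n] w = z` (`min_back`).  Let `D i`, `i < k`, be
the sets covering the fibre over `w`.  Every point `(z, y) ∈ cor` is `(sk)^[n] q`, `q ∈ cor` (`cor_back`), `q.1 = w`
(`T^[n]` is injective, `sk_iter_fst`), and `q.2 ∈ D i` for some `i`; two points `q, q'` with the same `i` have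
`dist q.2 q'.2 < δ`, so their images are at distance `≤ C l^n` (`contr` with `p = q'`).  So: among any `k + 1` points of the
fibre over `z` two are at distance `≤ C l^n` (pigeonhole), for arbitrarily large `n`; if they were different points of a
finite set `F ⊆ fibre` with `k + 1` elements this contradicts `C l^n → 0` (the minimal distance in `F` is positive).
So every finite subset of the fibre has at most `k` elements: the fibre is finite with `ncard ≤ k`
(`Set.encard_le_coe_iff`, or by contradiction with `Set.exists_subset_encard_eq`).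
`cov_exists`: `S` is covered by finitely many balls of radius `δ/3`; `U = univ`.
-/

set_option autoImplicit false

open Topology Filter

namespace Pool.Agent.H56.DI

variable {B S : Type*} [TopologicalSpace B] [CompactSpace B] [T2Space B] [MetricSpace S]
  [CompactSpace S] {T : B ≃ₜ B} {g : B → S → S} {Λ : Set (B × S)} {δ C l : ℝ}

/-- over some nonempty open set the fibres of `A` are covered by `k` sets of diameter `< δ` -/
def CovBy (A : Set (B × S)) (δ : ℝ) (k : ℕ) : Prop :=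
  ∃ U : Set B, IsOpen U ∧ U.Nonempty ∧ ∀ x ∈ U, ∃ D : Fin k → Set S,
    (∀ i, ∀ u ∈ D i, ∀ v ∈ D i, dist u v < δ) ∧ ∀ z, (x, z) ∈ A → ∃ i, z ∈ D i

private theorem cov_two (h : Attr T g Λ δ C l) (hT : IsMin T) {k : ℕ}
    (hk : CovBy (cor T g Λ) δ k) (z : B) (F : Finset S) (hF : ∀ y ∈ F, (z, y) ∈ cor T g Λ)
    (hc : k < F.card) (N : ℕ) :
    ∃ n ≥ N, ∃ y ∈ F, ∃ y' ∈ F, y ≠ y' ∧ dist y y' ≤ C * l ^ n := by
  obtain ⟨U, hU, hUne, hcov⟩ := hk
  obtain ⟨n, hn, w, hw, hwz⟩ := min_back hT hU hUne z N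
  obtain ⟨D, hD, hDcov⟩ := hcov w hw
  have hinj : Function.Injective ((⇑T)^[n]) := T.injective.iterate n
  have h1 : ∀ y : F, ∃ (q : S) (i : Fin k), (w, q) ∈ cor T g Λ ∧ q ∈ D i ∧
      ((sk T g)^[n] (w, q)) = (z, y.1) := by
    intro y
    obtain ⟨q, hq, hqe⟩ := cor_back h (hF y.1 y.2) n
    have h2 : q.1 = w := by
      apply hinj
      rw [hwz, ← sk_iter_fst, hqe]
    have h3 : (w, q.2) ∈ cor T g Λ := by
      rw [← h2]
      exact hq
    obtain ⟨i, hi⟩ := hDcov q.2 h3
    refine ⟨q.2, i, h3, hi, ?_⟩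
    rw [← h2]
    exact hqe
  choose q i h2 h3 h4 using h1
  obtain ⟨y, y', hne, hii⟩ := Fintype.exists_ne_map_eq_of_card_lt i (by
    rw [Fintype.card_fin, Fintype.card_coe]
    exact hc)
  refine ⟨n, hn, y.1, y.2, y'.1, y'.2, fun h5 => hne (Subtype.ext h5), ?_⟩
  have h6 : dist (q y) (q y') < δ := hD (i y) (q y) (h3 y) (q y') (by rw [hii]; exact h3 y')
  have h7 := h.contr (w, q y') (cor_sub (h2 y')) (q y) h6 n
  rw [h4 y'] at h7
  have h8 : ((sk T g)^[n] ((w, q y').1, q y)) = (z, y.1) := h4 y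
  rw [h8] at h7
  exact h7

private theorem cov_le (h : Attr T g Λ δ C l) (hT : IsMin T) {k : ℕ}
    (hk : CovBy (cor T g Λ) δ k) (z : B) (F : Finset S) (hF : ∀ y ∈ F, (z, y) ∈ cor T g Λ) :
    F.card ≤ k := by
  classical
  by_contra hc
  push Not at hc
  have h1 : Tendsto (fun n : ℕ => C * l ^ n) atTop (𝓝 0) := by
    have h2 := (tendsto_pow_atTop_nhds_zero_of_lt_one h.l0.le h.l1).const_mul C
    rwa [mul_zero] at h2
  have h2 : ∀ᶠ n in atTop, ∀ x ∈ F.offDiag, C * l ^ n < dist x.1 x.2 := by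
    rw [Filter.eventually_all_finset]
    intro x hx
    exact h1.eventually_lt_const (dist_pos.2 (Finset.mem_offDiag.1 hx).2.2)
  obtain ⟨N, hN⟩ := eventually_atTop.1 h2
  obtain ⟨n, hn, y, hy, y', hy', hne, hle⟩ := cov_two h hT hk z F hF hc N
  exact absurd hle (not_le.2 (hN n hn (y, y') (Finset.mem_offDiag.2 ⟨hy, hy', hne⟩)))

theorem cov_card (h : Attr T g Λ δ C l) (hT : IsMin T) {k : ℕ} (hk : CovBy (cor T g Λ) δ k)
    (z : B) : {y | (z, y) ∈ cor T g Λ}.Finite ∧ {y | (z, y) ∈ cor T g Λ}.ncard ≤ k := by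
  have hfin : {y | (z, y) ∈ cor T g Λ}.Finite := by
    by_contra hinf
    obtain ⟨F, hF, hc⟩ := Set.Infinite.exists_subset_card_eq hinf (k + 1)
    have h1 := cov_le h hT hk z F (fun y hy => hF (Finset.mem_coe.2 hy))
    omega
  refine ⟨hfin, ?_⟩
  rw [Set.ncard_eq_toFinset_card _ hfin]
  exact cov_le h hT hk z _ (fun y hy => (Set.Finite.mem_toFinset hfin).1 hy)

theorem cov_exists [Nonempty B] (A : Set (B × S)) (hδ : 0 < δ) : ∃ k, CovBy A δ k := by
  obtain ⟨t, -, ht, hcov⟩ := finite_cover_balls_of_compact (isCompact_univ (X := S))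
    (show 0 < δ / 3 by linarith)
  have hft : Finite t := ht.to_subtype
  obtain ⟨k, ⟨e⟩⟩ := Finite.exists_equiv_fin t
  refine ⟨k, Set.univ, isOpen_univ, Set.univ_nonempty, fun x _ =>
    ⟨fun i => Metric.ball ((e.symm i : t) : S) (δ / 3), fun i u hu v hv => ?_, fun z _ => ?_⟩⟩
  · rw [Metric.mem_ball] at hu hv
    have h1 := dist_triangle_right u v ((e.symm i : t) : S)
    linarith
  · have h1 := hcov (Set.mem_univ z)
    rw [Set.mem_iUnion₂] at h1
    obtain ⟨y, hy, hzy⟩ := h1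
    refine ⟨e ⟨y, hy⟩, ?_⟩
    change z ∈ Metric.ball ((e.symm (e ⟨y, hy⟩) : t) : S) (δ / 3)
    rw [Equiv.symm_apply_apply]
    exact hzy

end Pool.Agent.H56.DI
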