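import Mathlib
import Pool.Agent.H56.DI.Cov

/-!
# [H56 DI SEP] Over a minimal base the points of the attractor are separated

PROOFS.
`cov_sep` (the main step): let `m` be minimal with `CovBy (cor T g Λ) δ m` (`Nat.find`).  By `cov_card` all fibres have at most
`m` elements.  Let `x ∈ B` and let `F` be the (finite) fibre over `x`.  If `F.card < m` or if `F.card = m` and two
different points `u, v ∈ F` have `dist u v < δ`, then the fibre is contained in fewer than `m` open sets of diameter
`< δ`: the balls `B(p, ε)`, `p ∈ F`, with `B(u, ε) ∪ B(v, ε)` for the pair (`2 ε < δ`, `dist u v + 2 ε < δ`); by `cor_usc`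
with `O` = the union of these sets, the same sets cover the fibres over a neighbourhood of `x`, so
`CovBy (cor T g Λ) δ (m - 1)` (the fibres are nonempty, `cor_proj`, so `m ≥ 1`), contradiction with the minimality.
(`CovBy` is monotone in `k`.)  So `F.card = m` and `F` is `δ`-separated.
`cor_sep`: from `cov_sep`.  `cor_inj`: `z ↦ g x z` maps the fibre over `x` onto the fibre over `T x` (`cor_surj`,
`cor_fwd`, `T` injective); both have `m` elements, so it is injective (`Set.surjOn ... injOn` for finite sets of the same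
cardinality: `Set.injOn_of_ncard_image_eq` or `Finset.card_image_iff`).
-/

set_option autoImplicit false

open Topology Filter

namespace Pool.Agent.H56.DI

variable {B S : Type*} [TopologicalSpace B] [CompactSpace B] [T2Space B] [MetricSpace S]
  [CompactSpace S] {T : B ≃ₜ B} {g : B → S → S} {Λ : Set (B × S)} {δ C l : ℝ}

private theorem sep_cov (h : Attr T g Λ δ C l) (x : B) {ι : Type*} [Fintype ι] (O : ι → Set S)
    (hO : ∀ i, IsOpen (O i)) (hd : ∀ i, ∀ u ∈ O i, ∀ v ∈ O i, dist u v < δ)
    (hc : ∀ z, (x, z) ∈ cor T g Λ → ∃ i, z ∈ O i) (k : ℕ) (hk : Fintype.card ι ≤ k) :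
    CovBy (cor T g Λ) δ k := by
  obtain ⟨e⟩ : Nonempty (ι ↪ Fin k) :=
    Function.Embedding.nonempty_of_card_le (by rwa [Fintype.card_fin])
  obtain ⟨U, hU, hx, hU2⟩ := cor_usc h x (isOpen_iUnion hO) (fun z hz => Set.mem_iUnion.2 (hc z hz))
  refine ⟨U, hU, ⟨x, hx⟩, fun x' hx' => ⟨fun i => {z | ∃ j, e j = i ∧ z ∈ O j}, ?_, ?_⟩⟩
  · rintro i u ⟨j, hj, hu⟩ v ⟨j', hj', hv⟩
    have : j = j' := e.injective (hj.trans hj'.symm)
    subst this
    exact hd j u hu v hv
  · intro z hz
    obtain ⟨j, hj⟩ := Set.mem_iUnion.1 (hU2 x' hx' z hz)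
    exact ⟨e j, j, rfl, hj⟩

theorem cov_sep (h : Attr T g Λ δ C l) (hT : IsMin T) (hne : Λ.Nonempty) : ∃ m : ℕ, ∀ x : B,
    {y | (x, y) ∈ cor T g Λ}.Finite ∧ {y | (x, y) ∈ cor T g Λ}.ncard = m ∧
    ∀ u v, (x, u) ∈ cor T g Λ → (x, v) ∈ cor T g Λ → u ≠ v → δ ≤ dist u v := by
  classical
  obtain ⟨p, hp⟩ := id hne
  have : Nonempty B := ⟨p.1⟩
  have hex := cov_exists (cor T g Λ) h.δ0
  have hm := Nat.find_spec hex
  have hmin : ∀ k, CovBy (cor T g Λ) δ k → Nat.find hex ≤ k := fun k hk => Nat.find_min' hex hk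
  refine ⟨Nat.find hex, fun x => ?_⟩
  obtain ⟨hF, hFc⟩ := cov_card h hT hm x
  obtain ⟨z0, hz0⟩ := cor_proj h hT hne x
  have hδ := h.δ0
  have hFpos : 0 < {y | (x, y) ∈ cor T g Λ}.ncard := (Set.ncard_pos hF).2 ⟨z0, hz0⟩
  refine ⟨hF, le_antisymm hFc ?_, ?_⟩
  · have := hF.fintype
    refine hmin _ (sep_cov h x (fun j : {y | (x, y) ∈ cor T g Λ} => Metric.ball j.1 (δ / 2))
      (fun j => Metric.isOpen_ball) ?_ (fun z hz => ⟨⟨z, hz⟩, Metric.mem_ball_self (by linarith)⟩)
      _ ?_)
    · intro j u hu v hv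
      rw [Metric.mem_ball] at hu hv
      rw [dist_comm] at hv
      have := dist_triangle u j.1 v
      linarith
    · rw [← Nat.card_eq_fintype_card]
      exact le_rfl
  · intro u v hu hv huv
    by_contra hlt
    push Not at hlt
    obtain ⟨r, hr⟩ : ∃ r, r = (δ - dist u v) / 4 := ⟨_, rfl⟩
    have hr0 : 0 < r := by
      rw [hr]
      linarith
    have hd0 : 0 ≤ dist u v := dist_nonneg
    have hF2 : ({y | (x, y) ∈ cor T g Λ} \ {v}).Finite := hF.subset Set.sdiff_subset
    have := hF2.fintype
    have hcov := sep_cov h x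
      (fun j : ↥({y | (x, y) ∈ cor T g Λ} \ {v}) =>
        if j.1 = u then Metric.ball u r ∪ Metric.ball v r else Metric.ball j.1 r)
      (fun j => by
        split_ifs
        · exact Metric.isOpen_ball.union Metric.isOpen_ball
        · exact Metric.isOpen_ball) ?_ ?_ ({y | (x, y) ∈ cor T g Λ} \ {v}).ncard ?_
    · have h1 := hmin _ hcov
      have h2 := Set.ncard_sdiff_singleton_lt_of_mem (s := {y | (x, y) ∈ cor T g Λ}) hv hF
      omega
    · intro j a ha b hb
      split_ifs at ha hb with hj
      · rcases ha with ha | ha <;> rcases hb with hb | hb <;> rw [Metric.mem_ball] at ha hb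
        · rw [dist_comm] at hb
          have := dist_triangle a u b
          linarith
        · rw [dist_comm] at hb
          have := dist_triangle4 a u v b
          linarith
        · rw [dist_comm] at hb
          have := dist_triangle4 a v u b
          rw [dist_comm v u] at this
          linarith
        · rw [dist_comm] at hb
          have := dist_triangle a v b
          linarith
      · rw [Metric.mem_ball] at ha hb
        rw [dist_comm] at hb
        have := dist_triangle a j.1 b
        linarith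
    · intro z hz
      by_cases hzv : z = v
      · refine ⟨⟨u, hu, fun h' => huv h'⟩, ?_⟩
        rw [if_pos rfl, hzv]
        exact Or.inr (Metric.mem_ball_self hr0)
      · refine ⟨⟨z, hz, fun h' => hzv h'⟩, ?_⟩
        split_ifs with hzu
        · have hzu' : z = u := hzu
          rw [hzu']
          exact Or.inl (Metric.mem_ball_self hr0)
        · exact Metric.mem_ball_self hr0
    · rw [← Nat.card_eq_fintype_card]
      exact le_rfl

theorem cor_sep (h : Attr T g Λ δ C l) (hT : IsMin T) {x : B} {u v : S}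
    (hu : (x, u) ∈ cor T g Λ) (hv : (x, v) ∈ cor T g Λ) (huv : dist u v < δ) : u = v := by
  obtain ⟨m, hm⟩ := cov_sep h hT ⟨_, cor_sub hu⟩
  by_contra hne
  exact absurd huv (not_lt.2 ((hm x).2.2 u v hu hv hne))

theorem cor_inj (h : Attr T g Λ δ C l) (hT : IsMin T) {x : B} {u v : S}
    (hu : (x, u) ∈ cor T g Λ) (hv : (x, v) ∈ cor T g Λ) (huv : g x u = g x v) : u = v := by
  obtain ⟨m, hm⟩ := cov_sep h hT ⟨_, cor_sub hu⟩
  have himg : g x '' {y | (x, y) ∈ cor T g Λ} = {y | (T x, y) ∈ cor T g Λ} := by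
    apply Set.Subset.antisymm
    · rintro _ ⟨y, hy, rfl⟩
      exact cor_fwd h hy
    · intro w hw
      obtain ⟨q, hq, hqw⟩ := cor_surj h hw
      have h1 : T q.1 = T x := congrArg Prod.fst hqw
      have h2 : g q.1 q.2 = w := congrArg Prod.snd hqw
      have h3 : q.1 = x := T.injective h1
      refine ⟨q.2, ?_, ?_⟩
      · change (x, q.2) ∈ cor T g Λ
        rw [← h3]
        exact hq
      · rw [← h3]
        exact h2
  have hcard : (g x '' {y | (x, y) ∈ cor T g Λ}).ncard = {y | (x, y) ∈ cor T g Λ}.ncard := by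
    rw [himg, (hm (T x)).2.1, (hm x).2.1]
  exact Set.injOn_of_ncard_image_eq hcard (hm x).1 hu hv huv

end Pool.Agent.H56.DI
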