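import Mathlib
import Pool.Agent.H56.DI.Sep

/-!
# [H56 DI ENTER] Entering a trap is a clopen condition

`W` closed, `W' ⊆ W` open, `g x W ⊆ W'` for all `x`, forward orbits of points of `W` in the same fibre come together, `Λ` meets
`B × W`.  Then there is `N` such that every point of `Λ` which ever enters `W` is in `W'` at time `N`.

PROOF.  `mem_cor`: claim (E): if `(x, z) ∈ cor T g Λ` and `g x z ∈ W` then `z ∈ W'`.  Let `Λ₀ = Λ ∩ {p | p.2 ∈ W}`; it is closed,
nonempty and forward invariant, so `Attr T g Λ₀ δ C l`, and `cor T g Λ₀ ⊆ cor T g Λ`.  By `cor_proj` there is `u` with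
`(x, u) ∈ cor T g Λ₀`; by `cor_surj` `(x, u) = sk q`, `q.2 ∈ W`, so `u ∈ W'`.  Now `(T x, g x z)` and `(T x, g x u)` are in
`cor T g Λ` and both second components are in `W`; so for some `n` the points `(sk)^[n] (T x, g x z)` and
`(sk)^[n] (T x, g x u)` of `cor` (in the same fibre, `sk_iter_fst`) have distance `< δ`, so they are equal (`cor_sep`);
going back with `cor_inj` `n + 1` times: `z = u ∈ W'`.
`enter`: the sets `E n = {q ∈ (sk)^[n] '' Λ | q.2 ∉ W' ∧ g q.1 q.2 ∈ W}` are compact and decreasing, their intersection is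
empty by (E), so `E M = ∅` for some `M` (`IsCompact.nonempty_iInter_of_sequence_nonempty_isCompact_isClosed`).  Let
`N = M + 1`, `p ∈ Λ`, `(sk)^[n] p ∈ W` (second component).  Once in `W` the orbit stays in `W'` from the next step on.  If
`n ≤ M` we are done.  If `n > M`: for `j ≥ M` the point `q = (sk)^[j] p` is in `(sk)^[M] '' Λ`, so if `(sk)^[j+1] p` is in
`W` then `q.2 ∈ W'` (as `E M = ∅`); descending from `n` we get `(sk)^[M] p ∈ W'`, so `(sk)^[M+1] p ∈ W'`.
-/

set_option autoImplicit false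

open Topology Filter

namespace Pool.Agent.H56.DI

variable {B S : Type*} [TopologicalSpace B] [CompactSpace B] [T2Space B] [MetricSpace S]
  [CompactSpace S] {T : B ≃ₜ B} {g : B → S → S} {Λ : Set (B × S)} {δ C l : ℝ}

omit [CompactSpace B] [T2Space B] [MetricSpace S] [CompactSpace S] in
private theorem enter_iter_cor_aux (T : B ≃ₜ B) (g : B → S → S) (Λ : Set (B × S))
    (hf : ∀ p ∈ cor T g Λ, sk T g p ∈ cor T g Λ) (n : ℕ) : ∀ p ∈ cor T g Λ,
    (sk T g)^[n] p ∈ cor T g Λ := by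
  induction n with
  | zero => intro p hp; exact hp
  | succ n ih =>
    intro p hp
    rw [Function.iterate_succ_apply]
    exact ih _ (hf p hp)

private theorem enter_back (h : Attr T g Λ δ C l) (hT : IsMin T) (n : ℕ) :
    ∀ p ∈ cor T g Λ, ∀ q ∈ cor T g Λ, p.1 = q.1 → (sk T g)^[n] p = (sk T g)^[n] q → p = q := by
  induction n with
  | zero => intro p _ q _ _ h1; exact h1
  | succ n ih =>
    rintro ⟨x, u⟩ hp ⟨x', v⟩ hq h1 h2
    change x = x' at h1
    subst h1
    rw [Function.iterate_succ_apply, Function.iterate_succ_apply] at h2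
    have h3 := ih _ (cor_fwd h hp) _ (cor_fwd h hq) rfl h2
    have h4 : g x u = g x v := congrArg Prod.snd h3
    rw [cor_inj h hT hp hq h4]

theorem enter_mem (h : Attr T g Λ δ C l) (hT : IsMin T) {W W' : Set S} (hW : IsClosed W)
    (hsub : W' ⊆ W) (htrap : ∀ x, ∀ z ∈ W, g x z ∈ W')
    (hcon : ∀ x, ∀ u ∈ W, ∀ v ∈ W, Tendsto (fun n : ℕ =>
      dist ((sk T g)^[n] (x, u)).2 ((sk T g)^[n] (x, v)).2) atTop (𝓝 0))
    (hne : ∃ p ∈ Λ, p.2 ∈ W) {x : B} {z : S} (hz : (x, z) ∈ cor T g Λ) (hz' : g x z ∈ W) :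
    z ∈ W' := by
  have h0 : Attr T g (Λ ∩ {p | p.2 ∈ W}) δ C l :=
    { cont := h.cont
      closed := h.closed.inter (hW.preimage continuous_snd)
      fwd := fun p hp => ⟨h.fwd p hp.1, hsub (htrap p.1 p.2 hp.2)⟩
      δ0 := h.δ0
      l0 := h.l0
      l1 := h.l1
      contr := fun p hp => h.contr p hp.1 }
  have hsubc : cor T g (Λ ∩ {p | p.2 ∈ W}) ⊆ cor T g Λ :=
    Set.iInter_mono fun n => Set.image_mono Set.inter_subset_left
  have hne0 : (Λ ∩ {p | p.2 ∈ W}).Nonempty := by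
    obtain ⟨p, hp, hp'⟩ := hne
    exact ⟨p, hp, hp'⟩
  obtain ⟨u, hu⟩ := cor_proj h0 hT hne0 x
  have huW : u ∈ W' := by
    obtain ⟨q, hq, hqu⟩ := cor_surj h0 hu
    have h1 : g q.1 q.2 = u := congrArg Prod.snd hqu
    rw [← h1]
    exact htrap q.1 q.2 (cor_sub hq).2
  have hu' := hsubc hu
  have hfw : ∀ p ∈ cor T g Λ, sk T g p ∈ cor T g Λ := fun p hp => cor_fwd h hp
  have hlim := hcon (T x) (g x z) hz' (g x u) (hsub (htrap x u (hsub huW)))
  obtain ⟨n, hn⟩ := (hlim.eventually (gt_mem_nhds h.δ0)).exists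
  have hP := enter_iter_cor_aux T g Λ hfw n _ (hfw _ hz)
  have hQ := enter_iter_cor_aux T g Λ hfw n _ (hfw _ hu')
  have hP1 : (T x, g x z) = sk T g (x, z) := rfl
  have hQ1 : (T x, g x u) = sk T g (x, u) := rfl
  rw [hP1, hQ1] at hn
  have hfst : ((sk T g)^[n] (sk T g (x, z))).1 = ((sk T g)^[n] (sk T g (x, u))).1 := by
    rw [sk_iter_fst, sk_iter_fst]
    rfl
  have hPQ : (sk T g)^[n] (sk T g (x, z)) = (sk T g)^[n] (sk T g (x, u)) := by
    refine Prod.ext hfst ?_
    refine cor_sep (x := ((sk T g)^[n] (sk T g (x, z))).1) h hT hP ?_ hn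
    rw [hfst]
    exact hQ
  rw [← Function.iterate_succ_apply, ← Function.iterate_succ_apply] at hPQ
  have hfin := enter_back h hT (n + 1) _ hz _ hu' rfl hPQ
  have hzu : z = u := congrArg Prod.snd hfin
  rw [hzu]
  exact huW

theorem enter (h : Attr T g Λ δ C l) (hT : IsMin T) {W W' : Set S} (hW : IsClosed W)
    (hW' : IsOpen W') (hsub : W' ⊆ W) (htrap : ∀ x, ∀ z ∈ W, g x z ∈ W')
    (hcon : ∀ x, ∀ u ∈ W, ∀ v ∈ W, Tendsto (fun n : ℕ =>
      dist ((sk T g)^[n] (x, u)).2 ((sk T g)^[n] (x, v)).2) atTop (𝓝 0))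
    (hne : ∃ p ∈ Λ, p.2 ∈ W) :
    ∃ N : ℕ, ∀ p ∈ Λ, ∀ n : ℕ, ((sk T g)^[n] p).2 ∈ W → ((sk T g)^[N] p).2 ∈ W' := by
  have hcont : Continuous (sk T g) := sk_cont h.cont
  have hΛit : ∀ n, ∀ p ∈ Λ, (sk T g)^[n] p ∈ Λ := by
    intro n
    induction n with
    | zero => intro p hp; exact hp
    | succ n ih =>
      intro p hp
      rw [Function.iterate_succ_apply]
      exact ih _ (h.fwd p hp)
  have himg : ∀ n, IsCompact ((sk T g)^[n] '' Λ) := fun n =>
    h.closed.isCompact.image (hcont.iterate n)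
  have hEc : ∀ n, IsCompact (((sk T g)^[n] '' Λ) ∩ ({q | q.2 ∈ W'ᶜ} ∩ {q | g q.1 q.2 ∈ W})) :=
    fun n => (himg n).inter_right ((hW'.isClosed_compl.preimage continuous_snd).inter
      (hW.preimage h.cont))
  have hM : ∃ M, ((sk T g)^[M] '' Λ) ∩ ({q | q.2 ∈ W'ᶜ} ∩ {q | g q.1 q.2 ∈ W}) = ∅ := by
    by_contra hcontra
    push Not at hcontra
    have h1 : (⋂ n, ((sk T g)^[n] '' Λ) ∩ ({q | q.2 ∈ W'ᶜ} ∩ {q | g q.1 q.2 ∈ W})).Nonempty := by
      refine IsCompact.nonempty_iInter_of_sequence_nonempty_isCompact_isClosed _ ?_ ?_ (hEc 0)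
        fun n => (hEc n).isClosed
      · intro n
        refine Set.inter_subset_inter_left _ ?_
        rintro _ ⟨p, hp, rfl⟩
        exact ⟨sk T g p, h.fwd p hp, by rw [← Function.iterate_succ_apply]⟩
      · intro n
        exact hcontra n
    obtain ⟨q, hq⟩ := h1
    rw [Set.mem_iInter] at hq
    have hqc : (q.1, q.2) ∈ cor T g Λ := Set.mem_iInter.2 fun n => (hq n).1
    exact (hq 0).2.1 (enter_mem h hT hW hsub htrap hcon hne hqc (hq 0).2.2)
  obtain ⟨M, hM⟩ := hM
  refine ⟨M + 1, fun p hp n hn => ?_⟩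
  have hF1 : ∀ j, ((sk T g)^[j] p).2 ∈ W → ((sk T g)^[j + 1] p).2 ∈ W' := by
    intro j hj
    rw [Function.iterate_succ_apply']
    exact htrap _ _ hj
  have hF2 : ∀ i j, ((sk T g)^[j] p).2 ∈ W → ((sk T g)^[j + i + 1] p).2 ∈ W' := by
    intro i
    induction i with
    | zero => intro j hj; exact hF1 j hj
    | succ i ih =>
      intro j hj
      exact hF1 _ (hsub (ih j hj))
  rcases le_or_gt n M with hnM | hnM
  · obtain ⟨i, rfl⟩ := Nat.exists_eq_add_of_le hnM
    exact hF2 i n hn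
  · have hdesc : ∀ k, ((sk T g)^[M + k] p).2 ∈ W → ((sk T g)^[M] p).2 ∈ W := by
      intro k
      induction k with
      | zero => intro hk; exact hk
      | succ k ih =>
        intro hk
        apply ih
        by_contra hcon2
        have h1 : (sk T g)^[M + k] p ∈
            ((sk T g)^[M] '' Λ) ∩ ({q | q.2 ∈ W'ᶜ} ∩ {q | g q.1 q.2 ∈ W}) := by
          refine ⟨⟨(sk T g)^[k] p, hΛit k p hp, by rw [← Function.iterate_add_apply]⟩,
            fun h2 => hcon2 (hsub h2), ?_⟩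
          have h3 : (sk T g)^[M + (k + 1)] p = sk T g ((sk T g)^[M + k] p) := by
            rw [← add_assoc, Function.iterate_succ_apply']
          rw [h3] at hk
          exact hk
        rw [hM] at h1
        exact h1
    obtain ⟨k, rfl⟩ := Nat.exists_eq_add_of_lt hnM
    exact hF1 M (hdesc (k + 1) hn)

end Pool.Agent.H56.DI
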