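import Mathlib
import Pool.Agent.H56.DI.Att

/-!
# [H56 DI LAM] The set of all uniformly contracted orbits

`lam T g δ C l`: the points `p` such that the `δ`-balls around all points of the forward orbit of `p` are contracted like
`C l^n`.

PROOF of `lam_attr`.  `lam` is the intersection over `k`, `y`, `n` of the sets
`{p | dist y ((sk)^[k] p).2 < δ → dist ((sk)^[n] (((sk)^[k] p).1, y)).2 ((sk)^[n + k] p).2 ≤ C l^n}`, i.e. of
`{p | δ ≤ dist y ((sk)^[k] p).2} ∪ {p | dist ... ≤ C l^n}`, closed since the iterates of `sk` are continuous (`sk_cont`).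
Forward invariance: shift `k` (`Function.iterate_succ_apply`).  `contr`: `k = 0`.
-/

set_option autoImplicit false

open Topology Filter

namespace Pool.Agent.H56.DI

variable {B S : Type*} [TopologicalSpace B] [CompactSpace B] [T2Space B] [MetricSpace S]
  [CompactSpace S]

/-- see above -/
def lam (T : B ≃ₜ B) (g : B → S → S) (δ C l : ℝ) : Set (B × S) :=
  {p | ∀ (k : ℕ) (y : S), dist y ((sk T g)^[k] p).2 < δ → ∀ n : ℕ,
    dist ((sk T g)^[n] (((sk T g)^[k] p).1, y)).2 ((sk T g)^[n + k] p).2 ≤ C * l ^ n}

theorem lam_attr (T : B ≃ₜ B) (g : B → S → S) (hg : Continuous fun p : B × S => g p.1 p.2)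
    {δ C l : ℝ} (hδ : 0 < δ) (hl0 : 0 < l) (hl1 : l < 1) : Attr T g (lam T g δ C l) δ C l := by
  have hsk : Continuous (sk T g) := sk_cont hg
  refine ⟨hg, ?_, ?_, hδ, hl0, hl1, ?_⟩
  · have heq : lam T g δ C l = ⋂ (k : ℕ) (y : S) (n : ℕ),
        ({p : B × S | δ ≤ dist y ((sk T g)^[k] p).2} ∪
          {p : B × S | dist ((sk T g)^[n] (((sk T g)^[k] p).1, y)).2 ((sk T g)^[n + k] p).2 ≤
            C * l ^ n}) := by
      ext p
      simp only [lam, Set.mem_setOf_eq, Set.mem_iInter, Set.mem_union]
      constructor
      · intro h k y n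
        by_cases hd : dist y ((sk T g)^[k] p).2 < δ
        · exact Or.inr (h k y hd n)
        · exact Or.inl (not_lt.1 hd)
      · intro h k y hd n
        rcases h k y n with h1 | h1
        · exact absurd hd (not_lt.2 h1)
        · exact h1
    rw [heq]
    refine isClosed_iInter fun k => isClosed_iInter fun y => isClosed_iInter fun n => ?_
    have hk : Continuous ((sk T g)^[k]) := hsk.iterate k
    refine IsClosed.union ?_ ?_
    · exact isClosed_le continuous_const (continuous_const.dist (continuous_snd.comp hk))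
    · refine isClosed_le ?_ continuous_const
      exact (continuous_snd.comp ((hsk.iterate n).comp
        ((continuous_fst.comp hk).prodMk continuous_const))).dist
          (continuous_snd.comp (hsk.iterate (n + k)))
  · intro p hp k y hd n
    have h1 : (sk T g)^[k] (sk T g p) = (sk T g)^[k + 1] p := (Function.iterate_succ_apply _ _ _).symm
    have h2 : (sk T g)^[n + k] (sk T g p) = (sk T g)^[n + (k + 1)] p :=
      (Function.iterate_succ_apply _ _ _).symm
    rw [h1] at hd ⊢
    rw [h2]
    exact hp (k + 1) y hd n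
  · intro p hp y hd n
    exact hp 0 y hd n

end Pool.Agent.H56.DI
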