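import Mathlib
import Pool.Agent.H56.CF.Rotate
import Pool.Agent.H91.Fatou.Generic

/-!
# [H56 DI WRON] The Wronskian of a pair

`wr p` = Wronskian of the pair of polynomials with coefficient vectors `p.1`, `p.2` (`Wr P Q = P' Q - P Q'`, in
`H44/Fatou/Basic`; `pv`, `pv_coeff`, `pv_natDegree` in `H44/Fatou/PowDense`; `rm p = rat (pv p.1) (pv p.2)`).

PROOFS.
`wr_deg`: `natDegree_derivative_le`, `natDegree_mul_le`, `pv_natDegree`.
`ev_cont`: `(pv a).eval z = Σ a_i z^i` (`eval_finset_sum`), and the derivative evaluates to `Σ a_i i z^(i-1)`; finite sums of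
continuous functions of `(p, z)`.  `wr_cont`: from these.
`wr_crit`: by `not_inj_aux` (`H91/Fatou/Crit`): if `U` is a neighbourhood of `(c : Sph)` on which `rm p` is injective, let
`V` = preimage of `U` in `ℂ`, intersected with `{z | Q z ≠ 0}` (open); for `x, y ∈ V` with `P x Q y = P y Q x` the values
`rm p x = P x / Q x` and `rm p y` are equal (`rat_coe_of_ne`, `div_eq_div_iff`), so `x = y`.
`wr_ne`: `wr_ne_zero` in `H91/Fatou/Generic` (`dg = d > 0`).
`wr_lip`: the derivative of `P / Q` is `wr p / Q^2` on the closed disc, of modulus at most `κ`, and the disc is convex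
(`Convex.norm_image_sub_le_of_norm_hasDerivWithin_le`).
-/

set_option autoImplicit false

open Filter Topology OnePoint Polynomial
open Pool.Agent.H44.Fatou

namespace Pool.Agent.H56.DI

open Pool.Agent.H84.UC
open Pool.Agent.H56.CF

/-- pairs of coefficient vectors -/
abbrev P2 (d : ℕ) : Type := (Fin (d + 1) → ℂ) × (Fin (d + 1) → ℂ)

/-- the Wronskian -/
noncomputable def wr {d : ℕ} (p : P2 d) : Polynomial ℂ := Wr (pv p.1) (pv p.2)

theorem wr_deg {d : ℕ} (p : P2 d) : (wr p).natDegree ≤ 2 * d := by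
  unfold wr Wr
  have h1 := pv_natDegree p.1
  have h2 := pv_natDegree p.2
  have h3 := natDegree_derivative_le (pv p.1)
  have h4 := natDegree_derivative_le (pv p.2)
  refine (natDegree_sub_le _ _).trans (max_le ?_ ?_)
  · refine (natDegree_mul_le).trans ?_
    omega
  · refine (natDegree_mul_le).trans ?_
    omega

private theorem wron_ev {m : ℕ} (v : Fin (m + 1) → ℂ) (z : ℂ) :
    (pv v).eval z = ∑ i, v i * z ^ (i : ℕ) := by
  unfold pv
  rw [eval_finset_sum]
  refine Finset.sum_congr rfl fun i _ => ?_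
  rw [eval_mul, eval_C, eval_pow, eval_X]

private theorem wron_dev {m : ℕ} (v : Fin (m + 1) → ℂ) (z : ℂ) :
    (derivative (pv v)).eval z = ∑ i, v i * (((i : ℕ) : ℂ) * z ^ ((i : ℕ) - 1)) := by
  unfold pv
  rw [derivative_sum, eval_finset_sum]
  refine Finset.sum_congr rfl fun i _ => ?_
  rw [derivative_C_mul_X_pow, eval_mul, eval_C, eval_pow, eval_X]
  ring

theorem ev_cont (d : ℕ) :
    (Continuous fun q : P2 d × ℂ => (pv q.1.1).eval q.2) ∧
    (Continuous fun q : P2 d × ℂ => (pv q.1.2).eval q.2) := by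
  constructor
  · simp only [wron_ev]
    fun_prop
  · simp only [wron_ev]
    fun_prop

private theorem wron_dcont (d : ℕ) :
    (Continuous fun q : P2 d × ℂ => (derivative (pv q.1.1)).eval q.2) ∧
    (Continuous fun q : P2 d × ℂ => (derivative (pv q.1.2)).eval q.2) := by
  constructor
  · simp only [wron_dev]
    fun_prop
  · simp only [wron_dev]
    fun_prop

private theorem wron_wr {d : ℕ} (p : P2 d) (z : ℂ) : (wr p).eval z =
    (derivative (pv p.1)).eval z * (pv p.2).eval z -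
      (pv p.1).eval z * (derivative (pv p.2)).eval z := by
  unfold wr Wr
  rw [eval_sub, eval_mul, eval_mul]

theorem wr_cont (d : ℕ) : Continuous fun q : P2 d × ℂ => (wr q.1).eval q.2 := by
  simp only [wron_wr]
  exact ((wron_dcont d).1.mul (ev_cont d).2).sub ((ev_cont d).1.mul (wron_dcont d).2)

theorem wr_crit {d : ℕ} {p : P2 d} {c : ℂ} (hQ : (pv p.2).eval c ≠ 0)
    (hW : (wr p).eval c = 0) : ¬ ∃ U ∈ 𝓝 (c : Sph), Set.InjOn (rm p) U := by
  rintro ⟨U, hU, hinj⟩
  have hV : {z : ℂ | (z : Sph) ∈ U} ∩ {z | (pv p.2).eval z ≠ 0} ∈ 𝓝 c := by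
    refine inter_mem ?_ (((pv p.2).continuous.tendsto c).eventually_ne hQ)
    exact OnePoint.continuous_coe.continuousAt hU
  refine Pool.Agent.H91.Fatou.not_inj_aux (R := pv p.1) (S := pv p.2) hW hQ hV ?_
  rintro x ⟨hx1, hx2⟩ y ⟨hy1, hy2⟩ hxy
  have h1 : rm p (OnePoint.some x) = rm p (OnePoint.some y) := by
    show rat (pv p.1) (pv p.2) (OnePoint.some x) = rat (pv p.1) (pv p.2) (OnePoint.some y)
    rw [rat_coe_of_ne hx2, rat_coe_of_ne hy2, (div_eq_div_iff hx2 hy2).mpr hxy]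
  exact OnePoint.coe_injective (hinj hx1 hy1 h1)

theorem wr_ne {d : ℕ} (hd : 1 ≤ d) {p : P2 d} (h : p ∈ ND d) : wr p ≠ 0 := by
  refine Pool.Agent.H91.Fatou.wr_ne_zero h.1 ?_
  have h2 : max (pv p.1).natDegree (pv p.2).natDegree = d := h.2
  unfold dg
  rw [h2]
  exact hd

theorem wr_lip {d : ℕ} {p : P2 d} {r κ : ℝ}
    (hQ : ∀ z : ℂ, ‖z‖ ≤ r → (pv p.2).eval z ≠ 0)
    (hW : ∀ z : ℂ, ‖z‖ ≤ r → ‖(wr p).eval z‖ ≤ κ * ‖(pv p.2).eval z‖ ^ 2) {u v : ℂ}
    (hu : ‖u‖ ≤ r) (hv : ‖v‖ ≤ r) :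
    ‖(pv p.1).eval u / (pv p.2).eval u - (pv p.1).eval v / (pv p.2).eval v‖ ≤ κ * ‖u - v‖ := by
  have hd : ∀ z ∈ Metric.closedBall (0 : ℂ) r,
      HasDerivWithinAt (fun z => (pv p.1).eval z / (pv p.2).eval z)
        ((wr p).eval z / (pv p.2).eval z ^ 2) (Metric.closedBall (0 : ℂ) r) z := by
    intro z hz
    have hz' : ‖z‖ ≤ r := by simpa using hz
    have h1 := ((pv p.1).hasDerivAt z).div ((pv p.2).hasDerivAt z) (hQ z hz')
    rw [wron_wr]
    exact h1.hasDerivWithinAt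
  have hb : ∀ z ∈ Metric.closedBall (0 : ℂ) r,
      ‖(wr p).eval z / (pv p.2).eval z ^ 2‖ ≤ κ := by
    intro z hz
    have hz' : ‖z‖ ≤ r := by simpa using hz
    rw [norm_div, norm_pow, div_le_iff₀ (pow_pos (norm_pos_iff.mpr (hQ z hz')) 2)]
    exact hW z hz'
  have hu' : u ∈ Metric.closedBall (0 : ℂ) r := by simpa using hu
  have hv' : v ∈ Metric.closedBall (0 : ℂ) r := by simpa using hv
  exact Convex.norm_image_sub_le_of_norm_hasDerivWithin_le hd hb (convex_closedBall 0 r) hv' hu'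

end Pool.Agent.H56.DI
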