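import Mathlib
import Pool.Agent.H56.DI.Wron
import Pool.Agent.H56.DI.Enter
import Pool.Agent.H56.DI.Lam
import Pool.Agent.H56.CF.JCont
import Pool.Agent.H56.CF.Defs

/-!
# [H56 DI GOOD] Families with a trap: entering the trap is decided at one time

`Good T q`: a continuous family of rational maps over `(B, T)`, uniformly hyperbolic, with the trap
`W = {|z| ≤ 2/5}`, no critical points with `13 ≤ |z| ≤ 20` and with a critical point in the trap.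

PROOFS.  Let `g x = rm (q x)`; `(x, z) ↦ g x z` is continuous on `B × Sph` (`rat_jcont`).
`sk_cp`: induction (`cp_succ`; `sk_iter_fst`).
`good_attr`: `lam_attr` and `mem_lam`: every `(x, c)`, `|c| ≤ 20`, `wr (q x) c = 0`, is in `lam T g δ C l`: it is a critical point of
`g x` (`wr_crit`), so this is `Good.hyp`, translated with `sk_cp` and `cp_orb_shift`
(`((sk)^[n] (((sk)^[k] (x, c)).1, y)).2 = cp (orb T g x) k n y`).
`good_enter`: apply `enter` with `Λ = lam T g δ C l`, `W = {z | ∃ w : ℂ, ‖w‖ ≤ 2/5 ∧ z = w}` (compact image, closed),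
`W' = {z | ∃ w : ℂ, ‖w‖ < 2/5 ∧ z = w}` (open: `OnePoint.isOpenEmbedding_coe`); `htrap`: `Good.trap` and `rat_coe_of_ne`;
`hcon`: by induction the `n`-th images of `u, v ∈ W` are points `u', v'` of `W` with `‖u' - v'‖ ≤ (9/10)^n ‖u - v‖`
(`Good.lip`), and `dist (u' : Sph) v' ≤ ‖u' - v'‖` (`dist_coe_le`); `hne`: `Good.crit`.
-/

set_option autoImplicit false

open Filter Topology OnePoint Polynomial
open Pool.Agent.H44.Fatou

namespace Pool.Agent.H56.DI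

open Pool.Agent.H84.UC
open Pool.Agent.H56.CF

/-- see above -/
structure Good {B : Type*} [TopologicalSpace B] {d : ℕ} (T : B ≃ₜ B) (q : B → P2 d) : Prop where
  cont : Continuous q
  nd : ∀ x, q x ∈ ND d
  qne : ∀ x (z : ℂ), ‖z‖ ≤ 20 → (pv (q x).2).eval z ≠ 0
  wne : ∀ x (z : ℂ), 13 ≤ ‖z‖ → ‖z‖ ≤ 20 → (wr (q x)).eval z ≠ 0
  trap : ∀ x (z : ℂ), ‖z‖ ≤ 2 / 5 → ‖(pv (q x).1).eval z / (pv (q x).2).eval z‖ < 2 / 5
  lip : ∀ x (u v : ℂ), ‖u‖ ≤ 2 / 5 → ‖v‖ ≤ 2 / 5 →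
    ‖(pv (q x).1).eval u / (pv (q x).2).eval u - (pv (q x).1).eval v / (pv (q x).2).eval v‖ ≤
      9 / 10 * ‖u - v‖
  crit : ∃ x, ∃ c : ℂ, ‖c‖ ≤ 2 / 5 ∧ (wr (q x)).eval c = 0
  hyp : ∃ δ : ℝ, 0 < δ ∧ ∃ C l : ℝ, 0 < l ∧ l < 1 ∧ ∀ (x : B) (c : Sph),
    (¬ ∃ U ∈ 𝓝 c, Set.InjOn (rm (q x)) U) → ∀ (k n : ℕ) (y : Sph),
      dist y (cp (orb (⇑T) (fun x => rm (q x)) x) 0 k c) < δ →
      dist (cp (orb (⇑T) (fun x => rm (q x)) x) k n y)
        (cp (orb (⇑T) (fun x => rm (q x)) x) 0 (k + n) c) ≤ C * l ^ n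

theorem sk_cp {B S : Type*} (T : B → B) (g : B → S → S) (n : ℕ) (x : B) (y : S) :
    ((sk T g)^[n] (x, y)).2 = cp (orb T g x) 0 n y := by
  induction n with
  | zero => rfl
  | succ n ih =>
    rw [Function.iterate_succ_apply', cp_succ, Nat.zero_add, ← ih]
    change g ((sk T g)^[n] (x, y)).1 ((sk T g)^[n] (x, y)).2 = g (T^[n] x) ((sk T g)^[n] (x, y)).2
    rw [sk_iter_fst]

variable {B : Type*} [TopologicalSpace B] [CompactSpace B] [T2Space B] {d : ℕ} {T : B ≃ₜ B}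
  {q : B → P2 d}

theorem fam_jcont (hq : Continuous q) (hnd : ∀ x, q x ∈ ND d) :
    Continuous fun p : B × Sph => rm (q p.1) p.2 := by
  have h1 : Continuous fun p : B × Sph => ((⟨q p.1, hnd p.1⟩, p.2) : ND d × Sph) :=
    ((hq.comp continuous_fst).subtype_mk _).prodMk continuous_snd
  have h2 : (fun p : B × Sph => rm (q p.1) p.2) =
      (fun q : ND d × Sph => rat (pv q.1.1.1) (pv q.1.1.2) q.2) ∘
        (fun p : B × Sph => ((⟨q p.1, hnd p.1⟩, p.2) : ND d × Sph)) := by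
    funext p
    unfold rm
    rfl
  rw [h2]
  exact Continuous.comp (rat_jcont d) h1

private theorem good_val (h : Good T q) (x : B) {w : ℂ} (hw : ‖w‖ ≤ 2 / 5) :
    rm (q x) (w : Sph) = (((pv (q x).1).eval w / (pv (q x).2).eval w : ℂ) : Sph) := by
  unfold rm
  exact rat_coe_of_ne (h.qne x w (by linarith))

private theorem good_pair (h : Good T q) (x : B) {u v : ℂ} (hu : ‖u‖ ≤ 2 / 5)
    (hv : ‖v‖ ≤ 2 / 5) (n : ℕ) : ∃ u' v' : ℂ, ‖u'‖ ≤ 2 / 5 ∧ ‖v'‖ ≤ 2 / 5 ∧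
      ((sk T (fun x => rm (q x)))^[n] (x, (u : Sph))).2 = (u' : Sph) ∧
      ((sk T (fun x => rm (q x)))^[n] (x, (v : Sph))).2 = (v' : Sph) ∧
      ‖u' - v'‖ ≤ (9 / 10) ^ n * ‖u - v‖ := by
  induction n with
  | zero => exact ⟨u, v, hu, hv, rfl, rfl, by rw [pow_zero, one_mul]⟩
  | succ n ih =>
    obtain ⟨u', v', h1, h2, h3, h4, h5⟩ := ih
    refine ⟨_, _, (h.trap ((⇑T)^[n] x) u' h1).le, (h.trap ((⇑T)^[n] x) v' h2).le, ?_, ?_, ?_⟩
    · rw [Function.iterate_succ_apply']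
      change rm (q ((sk T (fun x => rm (q x)))^[n] (x, (u : Sph))).1)
        ((sk T (fun x => rm (q x)))^[n] (x, (u : Sph))).2 = _
      rw [h3, sk_iter_fst]
      exact good_val h _ h1
    · rw [Function.iterate_succ_apply']
      change rm (q ((sk T (fun x => rm (q x)))^[n] (x, (v : Sph))).1)
        ((sk T (fun x => rm (q x)))^[n] (x, (v : Sph))).2 = _
      rw [h4, sk_iter_fst]
      exact good_val h _ h2
    · refine (h.lip ((⇑T)^[n] x) u' v' h1 h2).trans ?_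
      rw [pow_succ]
      nlinarith

private theorem good_mem (h : Good T q) {δ C l : ℝ}
    (hyp : ∀ (x : B) (c : Sph),
      (¬ ∃ U ∈ 𝓝 c, Set.InjOn (rm (q x)) U) → ∀ (k n : ℕ) (y : Sph),
      dist y (cp (orb (⇑T) (fun x => rm (q x)) x) 0 k c) < δ →
      dist (cp (orb (⇑T) (fun x => rm (q x)) x) k n y)
        (cp (orb (⇑T) (fun x => rm (q x)) x) 0 (k + n) c) ≤ C * l ^ n) (x : B) (c : ℂ)
    (hc : ‖c‖ ≤ 20) (hW : (wr (q x)).eval c = 0) :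
    (x, (c : Sph)) ∈ lam T (fun x => rm (q x)) δ C l := by
  have hcr := wr_crit (h.qne x c hc) hW
  intro k y hd n
  rw [sk_cp] at hd
  have h1 := hyp x (c : Sph) hcr k n y hd
  rw [sk_iter_fst, sk_cp, sk_cp, cp_orb_shift, Nat.add_zero, Nat.add_comm n k]
  exact h1

theorem good_enter (hT : IsMin T) (h : Good T q) : ∃ N : ℕ, ∀ (x : B) (c : ℂ), ‖c‖ ≤ 20 →
    (wr (q x)).eval c = 0 →
    (∃ n, ∃ w : ℂ, ‖w‖ ≤ 2 / 5 ∧ cp (orb (⇑T) (fun x => rm (q x)) x) 0 n (c : Sph) = (w : Sph)) →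
    ∃ w : ℂ, ‖w‖ < 2 / 5 ∧ cp (orb (⇑T) (fun x => rm (q x)) x) 0 N (c : Sph) = (w : Sph) := by
  obtain ⟨δ, hδ, C, l, hl0, hl1, hyp⟩ := h.hyp
  have hA := lam_attr T (fun x => rm (q x)) (fam_jcont h.cont h.nd) (C := C) hδ hl0 hl1
  have hWc : IsClosed {z : Sph | ∃ w : ℂ, ‖w‖ ≤ 2 / 5 ∧ z = (w : Sph)} := by
    have h1 : {z : Sph | ∃ w : ℂ, ‖w‖ ≤ 2 / 5 ∧ z = (w : Sph)} =
        (fun w : ℂ => (w : Sph)) '' Metric.closedBall (0 : ℂ) (2 / 5) := by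
      ext z
      constructor
      · rintro ⟨w, hw, rfl⟩
        exact ⟨w, mem_closedBall_zero_iff.2 hw, rfl⟩
      · rintro ⟨w, hw, rfl⟩
        exact ⟨w, mem_closedBall_zero_iff.1 hw, rfl⟩
    rw [h1]
    exact ((isCompact_closedBall (0 : ℂ) (2 / 5)).image OnePoint.continuous_coe).isClosed
  have hWo : IsOpen {z : Sph | ∃ w : ℂ, ‖w‖ < 2 / 5 ∧ z = (w : Sph)} := by
    have h1 : {z : Sph | ∃ w : ℂ, ‖w‖ < 2 / 5 ∧ z = (w : Sph)} =
        (fun w : ℂ => (w : Sph)) '' Metric.ball (0 : ℂ) (2 / 5) := by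
      ext z
      constructor
      · rintro ⟨w, hw, rfl⟩
        exact ⟨w, mem_ball_zero_iff.2 hw, rfl⟩
      · rintro ⟨w, hw, rfl⟩
        exact ⟨w, mem_ball_zero_iff.1 hw, rfl⟩
    rw [h1]
    exact OnePoint.isOpenEmbedding_coe.isOpenMap _ Metric.isOpen_ball
  have hsub : {z : Sph | ∃ w : ℂ, ‖w‖ < 2 / 5 ∧ z = (w : Sph)} ⊆
      {z : Sph | ∃ w : ℂ, ‖w‖ ≤ 2 / 5 ∧ z = (w : Sph)} := by
    rintro z ⟨w, hw, rfl⟩
    exact ⟨w, hw.le, rfl⟩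
  have htrap : ∀ x, ∀ z ∈ {z : Sph | ∃ w : ℂ, ‖w‖ ≤ 2 / 5 ∧ z = (w : Sph)},
      (fun x => rm (q x)) x z ∈ {z : Sph | ∃ w : ℂ, ‖w‖ < 2 / 5 ∧ z = (w : Sph)} := by
    rintro x z ⟨w, hw, rfl⟩
    exact ⟨_, h.trap x w hw, good_val h x hw⟩
  have hcon : ∀ x, ∀ u ∈ {z : Sph | ∃ w : ℂ, ‖w‖ ≤ 2 / 5 ∧ z = (w : Sph)},
      ∀ v ∈ {z : Sph | ∃ w : ℂ, ‖w‖ ≤ 2 / 5 ∧ z = (w : Sph)}, Tendsto (fun n : ℕ =>
      dist ((sk T (fun x => rm (q x)))^[n] (x, u)).2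
        ((sk T (fun x => rm (q x)))^[n] (x, v)).2) atTop (𝓝 0) := by
    rintro x _ ⟨u, hu, rfl⟩ _ ⟨v, hv, rfl⟩
    have h1 : Tendsto (fun n : ℕ => (9 / 10 : ℝ) ^ n * ‖u - v‖) atTop (𝓝 0) := by
      have h2 := (tendsto_pow_atTop_nhds_zero_of_lt_one (r := (9 / 10 : ℝ)) (by norm_num)
        (by norm_num)).mul_const ‖u - v‖
      rwa [zero_mul] at h2
    refine squeeze_zero (fun n => dist_nonneg) (fun n => ?_) h1
    obtain ⟨u', v', -, -, h3, h4, h5⟩ := good_pair h x hu hv n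
    rw [h3, h4]
    exact (dist_coe_le u' v').trans h5
  have hne : ∃ p ∈ lam T (fun x => rm (q x)) δ C l,
      p.2 ∈ {z : Sph | ∃ w : ℂ, ‖w‖ ≤ 2 / 5 ∧ z = (w : Sph)} := by
    obtain ⟨x, c, hc, hW⟩ := h.crit
    exact ⟨(x, (c : Sph)), good_mem h hyp x c (by linarith) hW, c, hc, rfl⟩
  obtain ⟨N, hN⟩ := enter hA hT hWc hWo hsub htrap hcon hne
  refine ⟨N, fun x c hc hW hex => ?_⟩
  obtain ⟨n, w, hw, hn⟩ := hex
  have h1 := hN (x, (c : Sph)) (good_mem h hyp x c hc hW) n (by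
    rw [sk_cp]
    exact ⟨w, hw, hn⟩)
  rw [sk_cp] at h1
  exact h1

end Pool.Agent.H56.DI
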