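import Mathlib

/-!
# [H56 DI ROOT] Lower semicontinuity of the roots of polynomials (Mathlib only)

PROOFS.  `root_near`: suppose that all roots `a` of `w` have `‖a - c‖ ≥ r`.  `w ≠ 0` (`m > 0`), and
`w.eval t = w.leadingCoeff * ∏ (t - a)` over the multiset of roots (`IsAlgClosed.splits`,
`Polynomial.eval_eq_prod_roots_sub_of_splits_id` or similar).  For every root
`‖z - a‖ ≤ ‖z - c‖ + ‖c - a‖` and `‖c - a‖ ≥ r`, so `‖c - a‖ ≥ ‖z - a‖ * (r / (r + ‖z - c‖))` (as `t / (t + A)` is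
increasing in `t`).  Multiplying: `‖w.eval c‖ ≥ ‖w.eval z‖ * (r / (r + ‖z - c‖)) ^ (number of roots)
≥ m * (r / (r + ‖z - c‖)) ^ D`, since the base is in `(0, 1]` and the number of roots is at most `D`
(`Polynomial.card_roots'`).  Contradiction.
`root_lsc`: choose `z` with `(w x₀).eval z ≠ 0` (a nonzero polynomial over an infinite field is not zero everywhere,
`Polynomial.funext`), `m = ‖(w x₀).eval z‖ / 2`; for `x` near `x₀`: `‖(w x).eval z‖ ≥ m` and `‖(w x).eval c‖` is as small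
as we like (it is `0` at `x₀`).
-/

set_option autoImplicit false

open Topology Filter

namespace Pool.Agent.H56.DI

private theorem root_prod {c z : ℂ} {r : ℝ} (hr : 0 < r) (s : Multiset ℂ)
    (hs : ∀ a ∈ s, r ≤ ‖a - c‖) :
    ‖(s.map fun a => z - a).prod‖ * (r / (r + ‖z - c‖)) ^ s.card ≤
      ‖(s.map fun a => c - a).prod‖ := by
  have hA : 0 ≤ ‖z - c‖ := norm_nonneg _
  have hrA : 0 < r + ‖z - c‖ := by linarith
  induction s using Multiset.induction_on with
  | empty => simp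
  | cons a s ih =>
    have h1 := ih fun b hb => hs b (Multiset.mem_cons_of_mem hb)
    have h2 : r ≤ ‖c - a‖ := by
      rw [norm_sub_rev]
      exact hs a (Multiset.mem_cons_self a s)
    have h3 : ‖z - a‖ ≤ ‖z - c‖ + ‖c - a‖ := norm_sub_le_norm_sub_add_norm_sub z c a
    have h4 : ‖z - a‖ * (r / (r + ‖z - c‖)) ≤ ‖c - a‖ := by
      rw [← mul_div_assoc, div_le_iff₀ hrA]
      nlinarith [mul_nonneg hA (sub_nonneg.2 h2)]
    rw [Multiset.map_cons, Multiset.prod_cons, Multiset.map_cons, Multiset.prod_cons,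
      Multiset.card_cons, pow_succ, norm_mul, norm_mul]
    calc ‖z - a‖ * ‖(s.map fun a => z - a).prod‖ *
          ((r / (r + ‖z - c‖)) ^ s.card * (r / (r + ‖z - c‖)))
        = (‖z - a‖ * (r / (r + ‖z - c‖))) *
          (‖(s.map fun a => z - a).prod‖ * (r / (r + ‖z - c‖)) ^ s.card) := by ring
      _ ≤ ‖c - a‖ * ‖(s.map fun a => c - a).prod‖ :=
        mul_le_mul h4 h1 (by positivity) (norm_nonneg _)

theorem root_near (w : Polynomial ℂ) {D : ℕ} (hD : w.natDegree ≤ D) {c z : ℂ} {r m : ℝ}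
    (hr : 0 < r) (hm : 0 < m) (h1 : m ≤ ‖w.eval z‖)
    (h2 : ‖w.eval c‖ < m * (r / (r + ‖z - c‖)) ^ D) :
    ∃ c' : ℂ, w.eval c' = 0 ∧ ‖c' - c‖ < r := by
  by_contra hcon
  push Not at hcon
  have hA : 0 ≤ ‖z - c‖ := norm_nonneg _
  have hrA : 0 < r + ‖z - c‖ := by linarith
  have hq0 : 0 < r / (r + ‖z - c‖) := div_pos hr hrA
  have hq1 : r / (r + ‖z - c‖) ≤ 1 := by
    rw [div_le_one hrA]
    linarith
  have hw : w ≠ 0 := by
    rintro rfl
    rw [Polynomial.eval_zero, norm_zero] at h1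
    linarith
  have hprod := (IsAlgClosed.splits w).eq_prod_roots
  have heval : ∀ t : ℂ, w.eval t = w.leadingCoeff * (w.roots.map fun a => t - a).prod := by
    intro t
    conv_lhs => rw [hprod]
    rw [Polynomial.eval_mul, Polynomial.eval_C, Polynomial.eval_multiset_prod, Multiset.map_map]
    congr 2
    refine Multiset.map_congr rfl fun a _ => ?_
    simp
  have hall : ∀ a ∈ w.roots, r ≤ ‖a - c‖ := fun a ha =>
    hcon a (Polynomial.isRoot_of_mem_roots ha)
  have h3 := root_prod (c := c) (z := z) hr w.roots hall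
  have hcard : w.roots.card ≤ D := (Polynomial.card_roots' w).trans hD
  have h4 : (r / (r + ‖z - c‖)) ^ D ≤ (r / (r + ‖z - c‖)) ^ w.roots.card :=
    pow_le_pow_of_le_one hq0.le hq1 hcard
  have h5 : ‖w.eval z‖ * (r / (r + ‖z - c‖)) ^ w.roots.card ≤ ‖w.eval c‖ := by
    rw [heval z, heval c, norm_mul, norm_mul, mul_assoc]
    exact mul_le_mul_of_nonneg_left h3 (norm_nonneg _)
  have h6 : m * (r / (r + ‖z - c‖)) ^ D ≤ ‖w.eval z‖ * (r / (r + ‖z - c‖)) ^ w.roots.card :=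
    mul_le_mul h1 h4 (by positivity) (norm_nonneg _)
  linarith

theorem root_lsc {X : Type*} [TopologicalSpace X] (w : X → Polynomial ℂ) (D : ℕ)
    (hD : ∀ x, (w x).natDegree ≤ D) (hc : ∀ z : ℂ, Continuous fun x => (w x).eval z) {x₀ : X}
    (h0 : w x₀ ≠ 0) {c : ℂ} (hroot : (w x₀).eval c = 0) {r : ℝ} (hr : 0 < r) :
    ∀ᶠ x in 𝓝 x₀, ∃ c' : ℂ, (w x).eval c' = 0 ∧ ‖c' - c‖ < r := by
  obtain ⟨z, hz⟩ : ∃ z : ℂ, (w x₀).eval z ≠ 0 := by
    by_contra hno
    push Not at hno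
    exact h0 (Polynomial.funext fun t => by rw [hno t, Polynomial.eval_zero])
  have hzn : 0 < ‖(w x₀).eval z‖ := norm_pos_iff.2 hz
  have hm : 0 < ‖(w x₀).eval z‖ / 2 := by linarith
  have hrA : 0 < r + ‖z - c‖ := add_pos_of_pos_of_nonneg hr (norm_nonneg _)
  have hpos : 0 < ‖(w x₀).eval z‖ / 2 * (r / (r + ‖z - c‖)) ^ D :=
    mul_pos hm (pow_pos (div_pos hr hrA) D)
  have e1 : ∀ᶠ x in 𝓝 x₀, ‖(w x₀).eval z‖ / 2 < ‖(w x).eval z‖ :=
    (hc z).norm.continuousAt.eventually (lt_mem_nhds (by linarith))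
  have e2 : ∀ᶠ x in 𝓝 x₀, ‖(w x).eval c‖ < ‖(w x₀).eval z‖ / 2 * (r / (r + ‖z - c‖)) ^ D := by
    refine (hc c).norm.continuousAt.eventually (gt_mem_nhds ?_)
    dsimp only
    rw [hroot, norm_zero]
    exact hpos
  filter_upwards [e1, e2] with x h1 h2
  exact root_near (w x) (hD x) hr hm h1.le h2

end Pool.Agent.H56.DI
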