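import Mathlib
import Pool.Agent.H56.DI.Good
import Pool.Agent.H56.DI.Root

/-!
# [H56 DI CLOPEN] The base points whose critical points all enter the trap form a clopen set

`Good T q` (in `DI/Good.lean`): a continuous family of rational maps over `(B, T)`, uniformly hyperbolic, with the trap
`W = {|z| ≤ 2/5}`, no critical points with `13 ≤ |z| ≤ 20` and with a critical point in the trap.

PROOF of `clopen_E`.  Let `g x = rm (q x)`, continuous in `(x, z)` (`fam_jcont`), `W = {z | ∃ w : ℂ, ‖w‖ ≤ 2/5 ∧ z = w}` (compact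
image, closed), `W' = {z | ∃ w : ℂ, ‖w‖ < 2/5 ∧ z = w}` (open: `OnePoint.isOpenEmbedding_coe`), `E` the set and `N` from
`good_enter`.  The map `(x, z) ↦ cp (orb T g x) 0 N z` is continuous (induction, or `sk_cp` and `sk_cont`).
`E` is open: let `x₀ ∈ E`.  The set `A` of the `(x, c)`, `c ∈ closedBall 0 20` (compact), with `wr (q x) c = 0` and
`cp (orb T g x) 0 N c ∉ W'` is closed in the compact space `B × closedBall 0 20` (`wr_cont`), so its projection to `B` is closed
(`isClosedMap_fst_of_compactSpace` or images of compact sets); it does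
not contain `x₀` (all these points enter `W` by `x₀ ∈ E`, so they are in `W'` at time `N`), and its complement is
contained in `E`.
`E` is closed: let `x₀ ∉ E`: there is `c`, `‖c‖ ≤ 20`, `wr (q x₀) c = 0`, whose orbit never enters `W`; `‖c‖ < 13` by `Good.wne`.  Since
`cp (orb T g x₀) 0 N c ∉ W` and `W` is closed, there are a neighbourhood `U` of `x₀` and `0 < r < 7` with
`cp (orb T g x) 0 N c' ∉ W` for `x ∈ U`, `‖c' - c‖ < r`.  By `root_lsc` (`D = 2 d`, `wr_deg`, `wr_ne`, `wr_cont`) for `x` near `x₀` there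
is such a `c'` with `wr (q x) c' = 0`; `‖c'‖ ≤ 20`; if its orbit entered `W`, it would be in `W' ⊆ W` at time `N`.  So `x ∉ E`.
-/

set_option autoImplicit false

open Filter Topology OnePoint Polynomial
open Pool.Agent.H44.Fatou

namespace Pool.Agent.H56.DI

open Pool.Agent.H84.UC
open Pool.Agent.H56.CF

variable {B : Type*} [TopologicalSpace B] [CompactSpace B] [T2Space B] {d : ℕ} {T : B ≃ₜ B}
  {q : B → P2 d}

theorem clopen_E (hd : 2 ≤ d) (hT : IsMin T) (h : Good T q) :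
    IsClopen {x | ∀ c : ℂ, ‖c‖ ≤ 20 → (wr (q x)).eval c = 0 → ∃ n, ∃ w : ℂ, ‖w‖ ≤ 2 / 5 ∧
      cp (orb (⇑T) (fun x => rm (q x)) x) 0 n (c : Sph) = (w : Sph)} := by
  classical
  obtain ⟨N, hN⟩ := good_enter hT h
  -- continuity of the orbit map
  have hsk : Continuous (sk (⇑T) (fun x => rm (q x))) :=
    (T.continuous.comp continuous_fst).prodMk (fam_jcont h.cont h.nd)
  have hF : Continuous fun p : B × ℂ =>
      cp (orb (⇑T) (fun x => rm (q x)) p.1) 0 N ((p.2 : ℂ) : Sph) := by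
    have h1 : Continuous fun p : B × ℂ =>
        ((sk (⇑T) (fun x => rm (q x)))^[N] (p.1, ((p.2 : ℂ) : Sph))).2 :=
      continuous_snd.comp ((hsk.iterate N).comp
        (continuous_fst.prodMk (OnePoint.continuous_coe.comp continuous_snd)))
    refine h1.congr fun p => ?_
    exact sk_cp (⇑T) (fun x => rm (q x)) N p.1 ((p.2 : ℂ) : Sph)
  have hw : Continuous fun p : B × ℂ => (wr (q p.1)).eval p.2 :=
    (wr_cont d).comp ((h.cont.comp continuous_fst).prodMk continuous_snd)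
  -- the trap
  have hWc : IsClosed ((fun w : ℂ => (w : Sph)) '' Metric.closedBall (0 : ℂ) (2 / 5)) :=
    ((isCompact_closedBall (0 : ℂ) (2 / 5)).image OnePoint.continuous_coe).isClosed
  have hWo : IsOpen ((fun w : ℂ => (w : Sph)) '' Metric.ball (0 : ℂ) (2 / 5)) :=
    OnePoint.isOpenEmbedding_coe.isOpenMap _ Metric.isOpen_ball
  have hsub : (fun w : ℂ => (w : Sph)) '' Metric.ball (0 : ℂ) (2 / 5) ⊆
      (fun w : ℂ => (w : Sph)) '' Metric.closedBall (0 : ℂ) (2 / 5) :=
    Set.image_mono Metric.ball_subset_closedBall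
  have hN' : ∀ (x : B) (c : ℂ), ‖c‖ ≤ 20 → (wr (q x)).eval c = 0 →
      (∃ n, ∃ w : ℂ, ‖w‖ ≤ 2 / 5 ∧
        cp (orb (⇑T) (fun x => rm (q x)) x) 0 n (c : Sph) = (w : Sph)) →
      cp (orb (⇑T) (fun x => rm (q x)) x) 0 N (c : Sph) ∈
        (fun w : ℂ => (w : Sph)) '' Metric.ball (0 : ℂ) (2 / 5) := by
    intro x c hc hr hn
    obtain ⟨w, hw1, hw2⟩ := hN x c hc hr hn
    exact ⟨w, by rw [mem_ball_zero_iff]; exact hw1, hw2.symm⟩
  constructor
  · -- closed
    rw [← isOpen_compl_iff, isOpen_iff_mem_nhds]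
    intro x₀ hx₀
    simp only [Set.mem_compl_iff, Set.mem_ofPred_eq, not_forall] at hx₀
    obtain ⟨c, hc, hr, hno⟩ := hx₀
    have hc13 : ‖c‖ < 13 := by
      by_contra hge
      rw [not_lt] at hge
      exact h.wne x₀ c hge hc hr
    have hout : cp (orb (⇑T) (fun x => rm (q x)) x₀) 0 N (c : Sph) ∈
        ((fun w : ℂ => (w : Sph)) '' Metric.closedBall (0 : ℂ) (2 / 5))ᶜ := by
      rintro ⟨w, hw1, hw2⟩
      exact hno ⟨N, w, by rw [mem_closedBall_zero_iff] at hw1; exact hw1, hw2.symm⟩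
    have hnh : ∀ᶠ p in 𝓝 (x₀, c), cp (orb (⇑T) (fun x => rm (q x)) p.1) 0 N ((p.2 : ℂ) : Sph) ∈
        ((fun w : ℂ => (w : Sph)) '' Metric.closedBall (0 : ℂ) (2 / 5))ᶜ :=
      hF.continuousAt.eventually (hWc.isOpen_compl.mem_nhds hout)
    rw [nhds_prod_eq] at hnh
    obtain ⟨U, hU, V, hV, hUV⟩ := Filter.eventually_prod_iff.1 hnh
    obtain ⟨r, hr0, hrV⟩ := Metric.eventually_nhds_iff.1 hV
    have hroot := root_lsc (fun x => wr (q x)) (2 * d) (fun x => wr_deg (q x))
      (fun z => hw.comp (continuous_id.prodMk continuous_const))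
      (wr_ne (by omega) (h.nd x₀)) hr (lt_min hr0 (by norm_num : (0 : ℝ) < 7))
    filter_upwards [hU, hroot] with x hxU hx2
    obtain ⟨c', hc'0, hc'c⟩ := hx2
    have hc'r : dist c' c < r := by
      rw [dist_eq_norm]; exact hc'c.trans_le (min_le_left _ _)
    have hc'20 : ‖c'‖ ≤ 20 := by
      have h1 : ‖c'‖ ≤ ‖c' - c‖ + ‖c‖ := by
        have := norm_add_le (c' - c) c
        rwa [sub_add_cancel] at this
      have h2 : ‖c' - c‖ < 7 := hc'c.trans_le (min_le_right _ _)
      linarith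
    intro hx
    have h3 := hN' x c' hc'20 hc'0 (hx c' hc'20 hc'0)
    exact hUV hxU (hrV hc'r) (hsub h3)
  · -- open
    have hA : IsCompact {p : B × ℂ | ‖p.2‖ ≤ 20 ∧ (wr (q p.1)).eval p.2 = 0 ∧
        cp (orb (⇑T) (fun x => rm (q x)) p.1) 0 N ((p.2 : ℂ) : Sph) ∉
          (fun w : ℂ => (w : Sph)) '' Metric.ball (0 : ℂ) (2 / 5)} := by
      refine IsCompact.of_isClosed_subset
        ((isCompact_univ (X := B)).prod (isCompact_closedBall (0 : ℂ) 20)) ?_ ?_
      · refine (isClosed_le continuous_snd.norm continuous_const).inter ?_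
        refine (isClosed_eq hw continuous_const).inter ?_
        exact hWo.isClosed_compl.preimage hF
      · rintro ⟨x, c⟩ hp
        refine ⟨Set.mem_univ _, ?_⟩
        rw [mem_closedBall_zero_iff]
        exact hp.1
    have hcl := (hA.image (continuous_fst : Continuous (Prod.fst : B × ℂ → B))).isClosed
    have heq : {x | ∀ c : ℂ, ‖c‖ ≤ 20 → (wr (q x)).eval c = 0 → ∃ n, ∃ w : ℂ, ‖w‖ ≤ 2 / 5 ∧
        cp (orb (⇑T) (fun x => rm (q x)) x) 0 n (c : Sph) = (w : Sph)} =
        (Prod.fst '' {p : B × ℂ | ‖p.2‖ ≤ 20 ∧ (wr (q p.1)).eval p.2 = 0 ∧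
        cp (orb (⇑T) (fun x => rm (q x)) p.1) 0 N ((p.2 : ℂ) : Sph) ∉
          (fun w : ℂ => (w : Sph)) '' Metric.ball (0 : ℂ) (2 / 5)})ᶜ := by
      ext x
      constructor
      · intro hx
        rintro ⟨⟨x', c⟩, ⟨hc, hr, hno⟩, rfl⟩
        exact hno (hN' x' c hc hr (hx c hc hr))
      · intro hx c hc hr
        by_contra hno
        refine hx ⟨(x, c), ⟨hc, hr, ?_⟩, rfl⟩
        rintro ⟨w, hw1, hw2⟩
        exact hno ⟨N, w, by rw [mem_ball_zero_iff] at hw1; exact hw1.le, hw2.symm⟩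
    rw [heq]
    exact hcl.isOpen_compl

end Pool.Agent.H56.DI
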