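import Mathlib
import Pool.Agent.H56.DI.Wron

/-!
# [H56 DI FAM] The family `λ z^(d-1) (z - a)`

`λ = 1 - (15/16) min (2s) 1`, `a = 12 max (2s - 1) 0`, so `a = 0` (if `s ≤ 1/2`) or `λ = 1/16` (if `s ≥ 1/2`), `1/16 ≤ λ ≤ 1`,
`0 ≤ a ≤ 12` for `0 ≤ s ≤ 1`.  `fam d s` is the pair `(λ z^d - λ a z^(d-1), 1)`.

PROOFS.
`fam_P`: `pv` is a sum with two nonzero terms; `fam_Q`: one term.  `fam_cont`: coordinatewise.
`fam_nd`: `Q = 1` is coprime to everything, `natDegree Q = 0`, `natDegree P = d` (`pv_natDegree`, `pv_coeff`, `λ ≠ 0`,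
`Polynomial.le_natDegree_of_ne_zero`).  `fam_le`: `λ ≤ 1`, `λ a ≤ 3/4` (`λ = 1/16` if `a ≠ 0`).
`fam_wr`: `wr = P' * 1 - P * 0`, `P = C λ * X^d - C (λ a) * X^(d-1)`, `d = e + 2`.
-/

set_option autoImplicit false

open Filter Topology OnePoint Polynomial
open Pool.Agent.H44.Fatou

namespace Pool.Agent.H56.DI

open Pool.Agent.H84.UC
open Pool.Agent.H56.CF

/-- the leading coefficient -/
noncomputable def fl (s : ℝ) : ℝ := 1 - 15 / 16 * min (2 * s) 1

/-- the zero -/
noncomputable def fa (s : ℝ) : ℝ := 12 * max (2 * s - 1) 0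

/-- the pair `(λ z^(d-1) (z - a), 1)` -/
noncomputable def fam (d : ℕ) (s : ℝ) : P2 d :=
  (fun i => if (i : ℕ) = d then ((fl s : ℝ) : ℂ)
    else if (i : ℕ) + 1 = d then -((fl s * fa s : ℝ) : ℂ) else 0,
   fun i => if (i : ℕ) = 0 then 1 else 0)

theorem fam_Pe (e : ℕ) (s : ℝ) :
    pv (fam (e + 1) s).1 = C ((fl s : ℝ) : ℂ) * X ^ (e + 1) - C ((fl s * fa s : ℝ) : ℂ) * X ^ e := by
  ext n
  rw [pv_coeff, coeff_sub, coeff_C_mul, coeff_C_mul, coeff_X_pow, coeff_X_pow]
  by_cases hn : n < e + 1 + 1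
  · rw [dif_pos hn]
    simp only [fam]
    by_cases h1 : n = e + 1
    · subst h1
      simp
    · by_cases h2 : n = e
      · subst h2
        simp
      · rw [if_neg h1, if_neg (by omega), if_neg h1, if_neg h2]
        simp
  · rw [dif_neg hn, if_neg (by omega), if_neg (by omega)]
    simp

theorem fam_Qe (d : ℕ) (s : ℝ) : pv (fam d s).2 = 1 := by
  ext n
  rw [pv_coeff, coeff_one]
  by_cases hn : n < d + 1
  · rw [dif_pos hn]
    simp only [fam]
  · rw [dif_neg hn, if_neg (by omega)]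

theorem fam_P {d : ℕ} (hd : 2 ≤ d) (s : ℝ) (z : ℂ) :
    (pv (fam d s).1).eval z = (fl s : ℂ) * z ^ (d - 1) * (z - (fa s : ℂ)) := by
  obtain ⟨e, rfl⟩ : ∃ e, d = e + 1 := ⟨d - 1, by omega⟩
  rw [fam_Pe, Nat.add_sub_cancel]
  simp only [eval_sub, eval_mul, eval_C, eval_pow, eval_X]
  push_cast
  ring

theorem fam_Q {d : ℕ} (s : ℝ) (z : ℂ) : (pv (fam d s).2).eval z = 1 := by
  rw [fam_Qe, eval_one]

theorem fam_wr {d : ℕ} (hd : 2 ≤ d) (s : ℝ) (z : ℂ) :
    (wr (fam d s)).eval z =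
      (fl s : ℂ) * z ^ (d - 2) * ((d : ℂ) * z - ((d : ℂ) - 1) * (fa s : ℂ)) := by
  obtain ⟨e, rfl⟩ : ∃ e, d = e + 2 := ⟨d - 2, by omega⟩
  have h1 : pv (fam (e + 2) s).1 = _ := fam_Pe (e + 1) s
  rw [wr, Wr, h1, fam_Qe, Nat.add_sub_cancel]
  simp only [derivative_sub, derivative_C_mul, derivative_X_pow, derivative_one, mul_zero, sub_zero,
    mul_one, eval_sub, eval_mul, eval_C, eval_pow, eval_X, Nat.add_sub_cancel]
  push_cast
  ring

theorem fl_cont : Continuous fl := by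
  unfold fl
  fun_prop

theorem fa_cont : Continuous fa := by
  unfold fa
  fun_prop

theorem fam_cont (d : ℕ) : Continuous (fam d) := by
  unfold fam
  refine Continuous.prodMk ?_ ?_
  · refine continuous_pi fun i => ?_
    by_cases h1 : (i : ℕ) = d
    · simp only [if_pos h1]
      exact Complex.continuous_ofReal.comp fl_cont
    · by_cases h2 : (i : ℕ) + 1 = d
      · simp only [if_neg h1, if_pos h2]
        exact (Complex.continuous_ofReal.comp (fl_cont.mul fa_cont)).neg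
      · simp only [if_neg h1, if_neg h2]
        exact continuous_const
  · exact continuous_const

theorem fl_pos {s : ℝ} : 1 / 16 ≤ fl s := by
  unfold fl
  have : min (2 * s) 1 ≤ 1 := min_le_right _ _
  linarith

theorem fl_le {s : ℝ} (h0 : 0 ≤ s) : fl s ≤ 1 := by
  unfold fl
  have : 0 ≤ min (2 * s) 1 := le_min (by linarith) (by norm_num)
  linarith

theorem fa_nonneg (s : ℝ) : 0 ≤ fa s := by
  unfold fa
  have : 0 ≤ max (2 * s - 1) 0 := le_max_right _ _
  linarith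

theorem fa_le {s : ℝ} (h1 : s ≤ 1) : fa s ≤ 12 := by
  unfold fa
  have : max (2 * s - 1) 0 ≤ 1 := max_le (by linarith) (by norm_num)
  linarith

/-- `a = 0` or `λ = 1/16` -/
theorem fam_cases (s : ℝ) : fa s = 0 ∨ fl s = 1 / 16 := by
  rcases le_total (2 * s) 1 with h | h
  · left
    unfold fa
    rw [max_eq_right (by linarith), mul_zero]
  · right
    unfold fl
    rw [min_eq_right h]
    norm_num

theorem fam_nd {d : ℕ} (hd : 2 ≤ d) {s : ℝ} (h0 : 0 ≤ s) (h1 : s ≤ 1) : fam d s ∈ ND d := by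
  refine ⟨?_, ?_⟩
  · rw [fam_Qe]; exact isCoprime_one_right
  · rw [fam_Qe, natDegree_one, max_eq_left (Nat.zero_le _)]
    refine le_antisymm (pv_natDegree _) ?_
    apply le_natDegree_of_ne_zero
    rw [pv_coeff, dif_pos (Nat.lt_succ_self d)]
    simp only [fam, if_true]
    have := fl_pos (s := s)
    intro h
    have h2 : fl s = 0 := by exact_mod_cast h
    linarith

theorem fam_le {d : ℕ} {s : ℝ} (h0 : 0 ≤ s) (h1 : s ≤ 1) (i : Fin (d + 1)) :
    ‖(fam d s).1 i‖ ≤ 1 ∧ ‖(fam d s).2 i‖ ≤ 1 := by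
  have e1 := fl_pos (s := s)
  have e2 := fl_le h0
  have e3 := fa_nonneg s
  have e4 := fa_le h1
  refine ⟨?_, ?_⟩
  · simp only [fam]
    split_ifs
    · rw [Complex.norm_real, Real.norm_eq_abs, abs_of_pos (by linarith)]
      exact e2
    · rw [norm_neg, Complex.norm_real, Real.norm_eq_abs, abs_of_nonneg (by positivity)]
      rcases fam_cases s with h | h
      · rw [h]; norm_num
      · rw [h]; linarith
    · simp
  · simp only [fam]
    split_ifs <;> simp

end Pool.Agent.H56.DI
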