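import Mathlib
import Pool.Agent.H56.DI.Fam

/-!
# [H56 DI FAMB] Estimates for the family `λ z^(d-1) (z - a)`

`λ = fl s = 1 - (15/16) min (2s) 1`, `a = fa s = 12 max (2s - 1) 0`, so `a = 0` (if `s ≤ 1/2`) or `λ = 1/16` (if `s ≥ 1/2`),
`1/16 ≤ λ ≤ 1`, `0 ≤ a ≤ 12` for `0 ≤ s ≤ 1`.  `fam d s` is the pair `(λ z^d - λ a z^(d-1), 1)`; `fam_P`, `fam_wr` give the values
of `P` and of the Wronskian (derivative).

PROOFS.
`fam_disc`: `|z| ≤ 2/5`.  `|P z| = λ |z|^(d-1) |z - a|`: if `a = 0`: `≤ (2/5)^d ≤ 4/25`; if `λ = 1/16`: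
`≤ (1/16) (2/5) (62/5) = 31/100`.  So `≤ 8/25`.
`|wr z| = λ |z|^(d-2) |d z - (d-1) a|`: if `a = 0`: `≤ (2/5)^(d-1) d ≤ 4/5` since `(5/2)^(d-1) ≥ (5/2)(1 + (3/2)(d-2)) ≥ (5/4) d`
(Bernoulli, `one_add_mul_le_pow`); if `λ = 1/16`: `≤ (1/16) (2/5)^(d-2) (2d/5 + 12 (d-1)) ≤ 4/5` since
`(5/2)^(d-2) ≥ 1 + (3/2)(d-2) ≥ (12.4 d - 12)/12.8`.
`fam_far`: `|z| ≥ 50`: `λ |z|^(d-1) |z - a| ≥ (1/16) 50 * 38 > 100`.
`fam_ann`: `13 ≤ |z|`: `wr z = λ z^(d-2) (d z - (d-1) a)`, `|d z| ≥ 13 d > 12 (d - 1) ≥ |(d-1) a|`, `z ≠ 0`.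
`fam_zero`: `s = 0`: `λ = 1`, `a = 0`: `wr = d z^(d-1)`.
`fam_one`: `s = 1`: `λ = 1/16`, `a = 12`; `c = 12 (d-1)/d`, `d c - (d-1) 12 = 0`; `6 ≤ c < 12`;
`|P c| = (1/16) c^(d-1) (12/d) ≥ (3/4) 6^(d-1) / d ≥ 9/4` (`6^(d-1) ≥ 1 + 5 (d-1)` is not enough for `3 d` only at `d = 2`,
where `6 = 6`; `6^(d-1) = 6 * 6^(d-2) ≥ 6 (1 + 5 (d-2)) ≥ 3 d`).
-/

set_option autoImplicit false

open Filter Topology OnePoint Polynomial
open Pool.Agent.H44.Fatou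

namespace Pool.Agent.H56.DI

open Pool.Agent.H84.UC
open Pool.Agent.H56.CF

theorem fam_P_norm {d : ℕ} (hd : 2 ≤ d) (s : ℝ) (z : ℂ) :
    ‖(pv (fam d s).1).eval z‖ = fl s * ‖z‖ ^ (d - 1) * ‖z - (fa s : ℂ)‖ := by
  have e1 := fl_pos (s := s)
  rw [fam_P hd, norm_mul, norm_mul, norm_pow, Complex.norm_real, Real.norm_eq_abs,
    abs_of_pos (by linarith)]

theorem fam_wr_norm {d : ℕ} (hd : 2 ≤ d) (s : ℝ) (z : ℂ) :
    ‖(wr (fam d s)).eval z‖ =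
      fl s * ‖z‖ ^ (d - 2) * ‖(d : ℂ) * z - ((d : ℂ) - 1) * (fa s : ℂ)‖ := by
  have e1 := fl_pos (s := s)
  rw [fam_wr hd, norm_mul, norm_mul, norm_pow, Complex.norm_real, Real.norm_eq_abs,
    abs_of_pos (by linarith)]

/-- `(2/5)^n (1 + (3/2) n) ≤ 1` -/
theorem bern (n : ℕ) : (2 / 5 : ℝ) ^ n * (1 + 3 / 2 * n) ≤ 1 := by
  have h := one_add_mul_le_pow (a := (3 / 2 : ℝ)) (by norm_num) n
  have h2 : (2 / 5 : ℝ) ^ n * (1 + 3 / 2) ^ n = 1 := by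
    rw [← mul_pow]; norm_num
  calc (2 / 5 : ℝ) ^ n * (1 + 3 / 2 * n) ≤ (2 / 5 : ℝ) ^ n * (1 + 3 / 2) ^ n := by
        apply mul_le_mul_of_nonneg_left _ (by positivity)
        linarith
    _ = 1 := h2

theorem wr_lin_le (e : ℕ) {a : ℝ} (ha : 0 ≤ a) (z : ℂ) :
    ‖(((e + 2 : ℕ) : ℂ)) * z - (((e + 2 : ℕ) : ℂ) - 1) * (a : ℂ)‖ ≤ (e + 2) * ‖z‖ + (e + 1) * a := by
  refine (norm_sub_le _ _).trans ?_
  rw [norm_mul, norm_mul, Complex.norm_natCast, Complex.norm_real, Real.norm_eq_abs, abs_of_nonneg ha]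
  have h : ((e + 2 : ℕ) : ℂ) - 1 = ((e + 1 : ℕ) : ℂ) := by push_cast; ring
  rw [h, Complex.norm_natCast]
  push_cast
  rfl

theorem fam_disc {d : ℕ} (hd : 2 ≤ d) {s : ℝ} (h0 : 0 ≤ s) (h1 : s ≤ 1) {z : ℂ}
    (hz : ‖z‖ ≤ 2 / 5) : ‖(pv (fam d s).1).eval z‖ ≤ 8 / 25 ∧ ‖(wr (fam d s)).eval z‖ ≤ 4 / 5 := by
  have e1 := fl_pos (s := s)
  have e2 := fl_le h0
  have e3 := fa_nonneg s
  have e4 := fa_le h1
  obtain ⟨e, rfl⟩ : ∃ e, d = e + 2 := ⟨d - 2, by omega⟩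
  have hn : 0 ≤ ‖z‖ := norm_nonneg z
  have hp : ∀ n : ℕ, ‖z‖ ^ n ≤ (2 / 5) ^ n := fun n => pow_le_pow_left₀ hn hz n
  have hb := bern e
  have hq0 : (0 : ℝ) < (2 / 5 : ℝ) ^ e := by positivity
  have hq1 : (2 / 5 : ℝ) ^ e ≤ 1 := pow_le_one₀ (by norm_num) (by norm_num)
  refine ⟨?_, ?_⟩
  · rw [fam_P_norm hd, show e + 2 - 1 = e + 1 by omega]
    have h3 : ‖z - (fa s : ℂ)‖ ≤ 2 / 5 + fa s := by
      refine (norm_sub_le _ _).trans ?_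
      rw [Complex.norm_real, Real.norm_eq_abs, abs_of_nonneg e3]
      linarith
    have h4 : ‖z‖ ^ (e + 1) ≤ 2 / 5 := by
      refine (hp (e + 1)).trans ?_
      rw [pow_succ]
      nlinarith
    have h5 : ‖z‖ ^ (e + 1) * ‖z - (fa s : ℂ)‖ ≤ 2 / 5 * (2 / 5 + fa s) :=
      mul_le_mul h4 h3 (norm_nonneg _) (by norm_num)
    rw [mul_assoc]
    rcases fam_cases s with h | h
    · rw [h] at h5 ⊢
      have h6 : fl s * (‖z‖ ^ (e + 1) * ‖z - ((0 : ℝ) : ℂ)‖) ≤ 1 * (‖z‖ ^ (e + 1) * ‖z - ((0 : ℝ) : ℂ)‖) :=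
        mul_le_mul_of_nonneg_right e2 (by positivity)
      linarith
    · rw [h]
      linarith
  · rw [fam_wr_norm hd, show e + 2 - 2 = e by omega, mul_assoc]
    have h3 := wr_lin_le e e3 z
    have h4 := hp e
    have he : (0 : ℝ) ≤ e := Nat.cast_nonneg e
    have h5 : ((e : ℝ) + 2) * ‖z‖ + (e + 1) * fa s ≤ (e + 2) * (2 / 5) + (e + 1) * fa s := by
      have : ((e : ℝ) + 2) * ‖z‖ ≤ (e + 2) * (2 / 5) := mul_le_mul_of_nonneg_left hz (by positivity)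
      linarith
    have h6 := mul_le_mul h4 (h3.trans h5) (norm_nonneg _) (by positivity)
    rcases fam_cases s with h | h
    · rw [h] at h6 ⊢
      have h7 : fl s * (‖z‖ ^ e * ‖((e + 2 : ℕ) : ℂ) * z - (((e + 2 : ℕ) : ℂ) - 1) * ((0 : ℝ) : ℂ)‖) ≤
          1 * (‖z‖ ^ e * ‖((e + 2 : ℕ) : ℂ) * z - (((e + 2 : ℕ) : ℂ) - 1) * ((0 : ℝ) : ℂ)‖) :=
        mul_le_mul_of_nonneg_right e2 (by positivity)
      refine h7.trans ?_
      rw [one_mul]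
      refine h6.trans ?_
      nlinarith
    · rw [h]
      have h7 : (2 / 5 : ℝ) ^ e * (((e : ℝ) + 2) * (2 / 5) + (e + 1) * fa s) ≤
          (2 / 5 : ℝ) ^ e * (((e : ℝ) + 2) * (2 / 5) + (e + 1) * 12) := by
        apply mul_le_mul_of_nonneg_left _ hq0.le
        have : ((e : ℝ) + 1) * fa s ≤ (e + 1) * 12 := mul_le_mul_of_nonneg_left e4 (by positivity)
        linarith
      nlinarith

theorem fam_far {d : ℕ} (hd : 2 ≤ d) {s : ℝ} (h0 : 0 ≤ s) (h1 : s ≤ 1) {z : ℂ}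
    (hz : 50 ≤ ‖z‖) : 100 ≤ ‖(pv (fam d s).1).eval z‖ := by
  have e1 := fl_pos (s := s)
  have e3 := fa_nonneg s
  have e4 := fa_le h1
  rw [fam_P_norm hd]
  have h3 : 38 ≤ ‖z - (fa s : ℂ)‖ := by
    have := norm_sub_norm_le z (fa s : ℂ)
    rw [Complex.norm_real, Real.norm_eq_abs, abs_of_nonneg e3] at this
    linarith
  have h4 : 50 ≤ ‖z‖ ^ (d - 1) := by
    calc (50 : ℝ) ≤ ‖z‖ := hz
      _ = ‖z‖ ^ 1 := (pow_one _).symm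
      _ ≤ ‖z‖ ^ (d - 1) := pow_le_pow_right₀ (by linarith) (by omega)
  have h5 : (1 / 16 : ℝ) * 50 ≤ fl s * ‖z‖ ^ (d - 1) :=
    mul_le_mul e1 h4 (by norm_num) (by linarith)
  have h6 : (1 / 16 : ℝ) * 50 * 38 ≤ fl s * ‖z‖ ^ (d - 1) * ‖z - (fa s : ℂ)‖ :=
    mul_le_mul h5 h3 (by norm_num) (by linarith)
  linarith

theorem fam_ann {d : ℕ} (hd : 2 ≤ d) {s : ℝ} (h0 : 0 ≤ s) (h1 : s ≤ 1) {z : ℂ}
    (hz : 13 ≤ ‖z‖) : (wr (fam d s)).eval z ≠ 0 := by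
  have e1 := fl_pos (s := s)
  have e3 := fa_nonneg s
  have e4 := fa_le h1
  have hz0 : z ≠ 0 := by
    intro h; rw [h, norm_zero] at hz; linarith
  rw [fam_wr hd]
  refine mul_ne_zero (mul_ne_zero ?_ (pow_ne_zero _ hz0)) ?_
  · intro h
    have h2 : fl s = 0 := by exact_mod_cast h
    linarith
  · intro h
    obtain ⟨e, rfl⟩ : ∃ e, d = e + 1 := ⟨d - 1, by omega⟩
    have h2 : ((e + 1 : ℕ) : ℂ) * z = ((e : ℕ) : ℂ) * (fa s : ℂ) := by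
      push_cast at h ⊢
      linear_combination h
    have h3 := congrArg norm h2
    rw [norm_mul, norm_mul, Complex.norm_natCast, Complex.norm_natCast, Complex.norm_real,
      Real.norm_eq_abs, abs_of_nonneg e3] at h3
    push_cast at h3
    have he : (0 : ℝ) ≤ e := Nat.cast_nonneg e
    nlinarith

theorem fam_zero {d : ℕ} (hd : 2 ≤ d) :
    (∀ z : ℂ, z ≠ 0 → (wr (fam d 0)).eval z ≠ 0) ∧ (wr (fam d 0)).eval 0 = 0 ∧
    ∀ z : ℂ, (pv (fam d 0).1).eval z = z ^ d := by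
  have e1 : fl 0 = 1 := by unfold fl; norm_num
  have e2 : fa 0 = 0 := by unfold fa; norm_num
  refine ⟨?_, ?_, ?_⟩
  · intro z hz
    rw [fam_wr hd, e1, e2]
    refine mul_ne_zero (mul_ne_zero (by norm_num) (pow_ne_zero _ hz)) ?_
    simp only [Complex.ofReal_zero, mul_zero, sub_zero]
    exact mul_ne_zero (Nat.cast_ne_zero.2 (by omega)) hz
  · rw [fam_wr hd, e2]
    simp
  · intro z
    rw [fam_P hd, e1, e2]
    obtain ⟨e, rfl⟩ : ∃ e, d = e + 1 := ⟨d - 1, by omega⟩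
    rw [Nat.add_sub_cancel]
    simp only [Complex.ofReal_zero, Complex.ofReal_one]
    ring

theorem fam_one {d : ℕ} (hd : 2 ≤ d) : ∃ c : ℂ, ‖c‖ ≤ 12 ∧ (wr (fam d 1)).eval c = 0 ∧
    9 / 4 ≤ ‖(pv (fam d 1).1).eval c‖ := by
  have e1 : fl 1 = 1 / 16 := by unfold fl; norm_num
  have e2 : fa 1 = 12 := by unfold fa; norm_num
  obtain ⟨e, rfl⟩ : ∃ e, d = e + 2 := ⟨d - 2, by omega⟩
  have he : (0 : ℝ) ≤ e := Nat.cast_nonneg e
  set c : ℝ := 12 * (e + 1) / (e + 2) with hc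
  have hc6 : 6 ≤ c := by
    rw [hc, le_div_iff₀ (by positivity)]
    nlinarith
  have hc12 : c ≤ 12 := by
    rw [hc, div_le_iff₀ (by positivity)]
    nlinarith
  have hcd : 12 - c = 12 / (e + 2) := by
    rw [hc]
    field_simp
    ring
  refine ⟨(c : ℂ), ?_, ?_, ?_⟩
  · rw [Complex.norm_real, Real.norm_eq_abs, abs_of_nonneg (by linarith)]
    exact hc12
  · rw [fam_wr hd, e2]
    have h : ((e + 2 : ℕ) : ℂ) * (c : ℂ) - (((e + 2 : ℕ) : ℂ) - 1) * ((12 : ℝ) : ℂ) = 0 := by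
      have h2 : ((e : ℝ) + 2) * c - ((e + 2) - 1) * 12 = 0 := by
        rw [hc]
        field_simp
        ring
      exact_mod_cast h2
    rw [h, mul_zero]
  · rw [fam_P_norm hd, e1, e2, ← Complex.ofReal_sub, Complex.norm_real, Complex.norm_real, Real.norm_eq_abs,
      Real.norm_eq_abs, abs_of_nonneg (by linarith : 0 ≤ c), abs_sub_comm,
      abs_of_nonneg (by linarith : 0 ≤ 12 - c), hcd, show e + 2 - 1 = e + 1 by omega]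
    have h6 : (6 : ℝ) ^ (e + 1) ≤ c ^ (e + 1) := pow_le_pow_left₀ (by norm_num) hc6 _
    have h7 := one_add_mul_le_pow (a := (5 : ℝ)) (by norm_num) e
    have h8 : (6 : ℝ) ^ (e + 1) = 6 * (1 + 5) ^ e := by
      rw [pow_succ]; norm_num; ring
    have h9 : 3 * ((e : ℝ) + 2) ≤ c ^ (e + 1) := by
      rw [h8] at h6
      nlinarith
    have h10 : 1 / 16 * c ^ (e + 1) * (12 / (e + 2)) = 3 / 4 * (c ^ (e + 1) / (e + 2)) := by
      ring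
    rw [h10]
    have h11 : 3 ≤ c ^ (e + 1) / ((e : ℝ) + 2) := by
      rw [le_div_iff₀ (by positivity)]
      exact h9
    linarith

end Pool.Agent.H56.DI
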