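import Mathlib
import Pool.Agent.H56.DI.Wron
import Pool.Agent.H56.CF.JCont

/-!
# [H56 DI ROB] Open conditions persist (tube lemma)

PROOFS.  `nd_open`: `ND d` is open; `rat_jcont`: `(q, z) ↦ rm q z` is continuous on `ND d × Sph`.
`rob_set`: for an open `O ⊆ Sph` the set `{(q, z) | q ∈ ND d ∧ rm q z ∈ O}` is open in `P2 d × Sph` (image of the open set
`{(q, z) : ND d × Sph | rm q z ∈ O}` under the open embedding `ND d × Sph → P2 d × Sph`).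
`rob_pt`: a product neighbourhood of `(q₀, z)` in this open set.
`rob_C`: `{p | ∀ z ∈ Z, (p, z) ∈ Ω}` is open (tube lemma: `generalized_tube_lemma`, or `isOpen` by closedness of the
projection of the complement) and contains the compact set `𝒦`, so it contains a thickening of it
(`IsCompact.exists_thickening_subset_open`; `𝒦 = ∅` is trivial).
`rob_sph`: the same, with the open set of `rob_set`, and `ND d` itself.
-/

set_option autoImplicit false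

open Filter Topology OnePoint Polynomial
open Pool.Agent.H44.Fatou

namespace Pool.Agent.H56.DI

open Pool.Agent.H84.UC
open Pool.Agent.H56.CF

private theorem rob_open {X Y : Type*} [TopologicalSpace X] [TopologicalSpace Y] {Z : Set Y}
    (hZ : IsCompact Z) {Ω : Set (X × Y)} (hΩ : IsOpen Ω) :
    IsOpen {p : X | ∀ z ∈ Z, (p, z) ∈ Ω} := by
  rw [isOpen_iff_eventually]
  intro p hp
  exact hZ.eventually_forall_of_forall_eventually fun z hz => hΩ.mem_nhds (hp z hz)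

private theorem rob_thick {X : Type*} [PseudoMetricSpace X] {K U : Set X} (hK : IsCompact K)
    (hU : IsOpen U) (h : K ⊆ U) :
    ∃ η : ℝ, 0 < η ∧ ∀ p ∈ K, ∀ q : X, dist q p < η → q ∈ U := by
  obtain ⟨η, hη, hs⟩ := hK.exists_thickening_subset_open hU h
  exact ⟨η, hη, fun p hp q hq => hs (Metric.mem_thickening_iff.2 ⟨p, hp, hq⟩)⟩

theorem rob_set (d : ℕ) {O : Set Sph} (hO : IsOpen O) :
    IsOpen {q : P2 d × Sph | q.1 ∈ ND d ∧ rm q.1 q.2 ∈ O} := by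
  have he : IsOpenEmbedding (Prod.map (Subtype.val : ND d → P2 d) (id : Sph → Sph)) :=
    (nd_open d).isOpenEmbedding_subtypeVal.prodMap IsOpenEmbedding.id
  have h1 : IsOpen {q : ND d × Sph | rm q.1.1 q.2 ∈ O} := hO.preimage (rat_jcont d)
  have h2 := he.isOpenMap _ h1
  convert h2 using 1
  ext q
  constructor
  · rintro ⟨ha, hb⟩
    exact ⟨(⟨q.1, ha⟩, q.2), hb, rfl⟩
  · rintro ⟨⟨⟨p, hp⟩, z⟩, hb, rfl⟩
    exact ⟨hp, hb⟩

theorem rob_pt {d : ℕ} {q₀ : P2 d} (h0 : q₀ ∈ ND d) {z : Sph} {O : Set Sph} (hO : IsOpen O)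
    (hz : rm q₀ z ∈ O) : ∃ η : ℝ, 0 < η ∧ ∃ O' : Set Sph, IsOpen O' ∧ z ∈ O' ∧
      ∀ q : P2 d, dist q q₀ < η → ∀ z' ∈ O', rm q z' ∈ O := by
  obtain ⟨U, V, hU, hV, hqU, hzV, hUV⟩ := isOpen_prod_iff.1 (rob_set d hO) q₀ z ⟨h0, hz⟩
  obtain ⟨η, hη, hb⟩ := Metric.isOpen_iff.1 hU q₀ hqU
  exact ⟨η, hη, V, hV, hzV, fun q hq z' hz' => (hUV (Set.mk_mem_prod (hb hq) hz')).2⟩

theorem rob_C {d : ℕ} {𝒦 : Set (P2 d)} (hK : IsCompact 𝒦) {Z : Set ℂ} (hZ : IsCompact Z)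
    {Ω : Set (P2 d × ℂ)} (hΩ : IsOpen Ω) (h : ∀ p ∈ 𝒦, ∀ z ∈ Z, (p, z) ∈ Ω) :
    ∃ η : ℝ, 0 < η ∧ ∀ p ∈ 𝒦, ∀ q : P2 d, dist q p < η → ∀ z ∈ Z, (q, z) ∈ Ω :=
  rob_thick hK (rob_open hZ hΩ) h

theorem rob_sph {d : ℕ} {𝒦 : Set (P2 d)} (hK : IsCompact 𝒦) (hd : 𝒦 ⊆ ND d) {Z O : Set Sph}
    (hZ : IsCompact Z) (hO : IsOpen O) (h : ∀ p ∈ 𝒦, ∀ z ∈ Z, rm p z ∈ O) :
    ∃ η : ℝ, 0 < η ∧ ∀ p ∈ 𝒦, ∀ q : P2 d, dist q p < η → q ∈ ND d ∧ ∀ z ∈ Z, rm q z ∈ O := by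
  obtain ⟨η, hη, hs⟩ := rob_thick hK ((nd_open d).inter (rob_open hZ (rob_set d hO)))
    (fun p hp => ⟨hd hp, fun z hz => ⟨hd hp, h p hp z hz⟩⟩)
  exact ⟨η, hη, fun p hp q hq => ⟨(hs p hp q hq).1, fun z hz => ((hs p hp q hq).2 z hz).2⟩⟩

end Pool.Agent.H56.DI
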