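import Mathlib
import Pool.Agent.H56.DI.FamB
import Pool.Agent.H56.DI.Rob

/-!
# [H56 DI NEAR] Everything persists near the family

`DD` = `{|z| ≥ 50} ∪ {∞}`, `DO` = `{|z| > 50} ∪ {∞}`.

PROOFS.  `dd_closed`: the complement is the image of the open ball under the open embedding `ℂ → Sph`.
`do_open`: the complement is the image of a closed ball (compact).
`ok_near`: let `𝒦 = fam d '' Icc 0 1`, compact (`fam_cont`), contained in `ND d` (`fam_nd`).  Apply `rob_C` with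
`Z = closedBall 0 20`, `Ω = {Q z ≠ 0}`; `Z = closedBall 0 20 \ ball 0 13`, `Ω = {wr z ≠ 0}` (`fam_ann`);
`Z = closedBall 0 (2/5)`, `Ω = {‖P z‖ < (2/5) ‖Q z‖}` and `Ω = {‖wr z‖ < (9/10) ‖Q z‖^2}` (`fam_disc`, `fam_Q`), open by `ev_cont`,
`wr_cont`; and `rob_sph` with `Z = DD` (closed in the compact space `Sph`), `O = DO`: for a finite point `fam_far`
(`rat_coe_of_ne`), and `rm (fam d s) ∞ = ∞` (`rat_infty`: the coefficient of degree `d` of `Q = 1` is `0` as `d > 0`, so `pt _ 0 = ∞`;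
`dg = d` by `fam_nd`).  `η` = the minimum.  (`trap`: `‖P‖ < (2/5)‖Q‖` implies `Q ≠ 0` and `‖P / Q‖ < 2/5`.)
-/

set_option autoImplicit false

open Filter Topology OnePoint Polynomial
open Pool.Agent.H44.Fatou

namespace Pool.Agent.H56.DI

open Pool.Agent.H84.UC
open Pool.Agent.H56.CF

/-- a neighbourhood of infinity -/
def DD : Set Sph := {z | ∀ w : ℂ, z = (w : Sph) → 50 ≤ ‖w‖}

/-- its interior -/
def DO : Set Sph := {z | ∀ w : ℂ, z = (w : Sph) → 50 < ‖w‖}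

/-- see above -/
structure Ok {d : ℕ} (q : P2 d) : Prop where
  nd : q ∈ ND d
  qne : ∀ z : ℂ, ‖z‖ ≤ 20 → (pv q.2).eval z ≠ 0
  wne : ∀ z : ℂ, 13 ≤ ‖z‖ → ‖z‖ ≤ 20 → (wr q).eval z ≠ 0
  trap : ∀ z : ℂ, ‖z‖ ≤ 2 / 5 → ‖(pv q.1).eval z / (pv q.2).eval z‖ < 2 / 5
  wlt : ∀ z : ℂ, ‖z‖ ≤ 2 / 5 → ‖(wr q).eval z‖ ≤ 9 / 10 * ‖(pv q.2).eval z‖ ^ 2
  far : ∀ z ∈ DD, rm q z ∈ DD

theorem dd_closed : IsClosed DD := by
  rw [← isOpen_compl_iff]
  have h : DDᶜ = ((↑) : ℂ → Sph) '' Metric.ball (0 : ℂ) 50 := by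
    ext z
    constructor
    · intro hz
      simp only [DD, Set.mem_compl_iff, Set.mem_ofPred_eq, not_forall, not_le] at hz
      obtain ⟨w, hw, hlt⟩ := hz
      exact ⟨w, by simpa using hlt, hw.symm⟩
    · rintro ⟨w, hw, rfl⟩ hz
      have h1 := hz w rfl
      have h2 : ‖w‖ < 50 := by simpa using hw
      linarith
  rw [h]
  exact OnePoint.isOpenMap_coe _ Metric.isOpen_ball

theorem do_open : IsOpen DO := by
  rw [← isClosed_compl_iff]
  have h : DOᶜ = ((↑) : ℂ → Sph) '' Metric.closedBall (0 : ℂ) 50 := by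
    ext z
    constructor
    · intro hz
      simp only [DO, Set.mem_compl_iff, Set.mem_ofPred_eq, not_forall, not_lt] at hz
      obtain ⟨w, hw, hle⟩ := hz
      exact ⟨w, by simpa using hle, hw.symm⟩
    · rintro ⟨w, hw, rfl⟩ hz
      have h1 := hz w rfl
      have h2 : ‖w‖ ≤ 50 := by simpa using hw
      linarith
  rw [h]
  exact ((isCompact_closedBall (0 : ℂ) 50).image OnePoint.continuous_coe).isClosed

private theorem near_far {d : ℕ} (hd : 2 ≤ d) {s : ℝ} (h0 : 0 ≤ s) (h1 : s ≤ 1) {z : Sph}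
    (hz : z ∈ DD) : rm (fam d s) z ∈ DO := by
  intro w hw
  induction z using OnePoint.rec with
  | infty =>
    have hnd := fam_nd hd h0 h1
    have hdg : dg (pv (fam d s).1) (pv (fam d s).2) = d := hnd.2
    have h2 : rm (fam d s) ∞ = ∞ := by
      show rat (pv (fam d s).1) (pv (fam d s).2) ∞ = ∞
      rw [rat_infty, hdg, fam_Qe, coeff_one, if_neg (by omega)]
      unfold pt
      rw [if_pos rfl]
    rw [h2] at hw
    exact absurd hw (infty_ne_coe _)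
  | coe x =>
    have hx : 50 ≤ ‖x‖ := hz x rfl
    have hQ : (pv (fam d s).2).eval x ≠ 0 := by rw [fam_Q]; exact one_ne_zero
    have h2 : rm (fam d s) (x : Sph) = (((pv (fam d s).1).eval x : ℂ) : Sph) := by
      show rat (pv (fam d s).1) (pv (fam d s).2) (OnePoint.some x) = _
      rw [rat_coe_of_ne hQ, fam_Q, div_one]
    rw [h2] at hw
    have h3 := fam_far hd h0 h1 hx
    rw [OnePoint.coe_injective hw] at h3
    linarith

theorem ok_near {d : ℕ} (hd : 2 ≤ d) : ∃ η : ℝ, 0 < η ∧ ∀ s : ℝ, 0 ≤ s → s ≤ 1 →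
    ∀ q : P2 d, dist q (fam d s) < η → Ok q := by
  have hK : IsCompact (fam d '' Set.Icc (0 : ℝ) 1) := isCompact_Icc.image (fam_cont d)
  have hc1 := (ev_cont d).1
  have hc2 := (ev_cont d).2
  have hcw := wr_cont d
  obtain ⟨η₁, e₁, H₁⟩ := rob_C hK (isCompact_closedBall (0 : ℂ) 20)
    (Ω := {q : P2 d × ℂ | (pv q.1.2).eval q.2 ≠ 0}) (isOpen_ne_fun hc2 continuous_const) (by
      rintro _ ⟨s, _, rfl⟩ z _
      show (pv (fam d s).2).eval z ≠ 0
      rw [fam_Q]; exact one_ne_zero)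
  obtain ⟨η₂, e₂, H₂⟩ := rob_C hK
    ((isCompact_closedBall (0 : ℂ) 20).diff (Metric.isOpen_ball (x := (0 : ℂ)) (ε := 13)))
    (Ω := {q : P2 d × ℂ | (wr q.1).eval q.2 ≠ 0}) (isOpen_ne_fun hcw continuous_const) (by
      rintro _ ⟨s, hs, rfl⟩ z hz
      have h13 : 13 ≤ ‖z‖ := by
        have := hz.2
        simpa using this
      exact fam_ann hd hs.1 hs.2 h13)
  obtain ⟨η₃, e₃, H₃⟩ := rob_C hK (isCompact_closedBall (0 : ℂ) (2 / 5))
    (Ω := {q : P2 d × ℂ | ‖(pv q.1.1).eval q.2‖ < 2 / 5 * ‖(pv q.1.2).eval q.2‖})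
    (isOpen_lt hc1.norm (continuous_const.mul hc2.norm)) (by
      rintro _ ⟨s, hs, rfl⟩ z hz
      have hz' : ‖z‖ ≤ 2 / 5 := by simpa using hz
      have h := (fam_disc hd hs.1 hs.2 hz').1
      show ‖(pv (fam d s).1).eval z‖ < 2 / 5 * ‖(pv (fam d s).2).eval z‖
      rw [fam_Q, norm_one]
      linarith)
  obtain ⟨η₄, e₄, H₄⟩ := rob_C hK (isCompact_closedBall (0 : ℂ) (2 / 5))
    (Ω := {q : P2 d × ℂ | ‖(wr q.1).eval q.2‖ < 9 / 10 * ‖(pv q.1.2).eval q.2‖ ^ 2})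
    (isOpen_lt hcw.norm (continuous_const.mul (hc2.norm.pow 2))) (by
      rintro _ ⟨s, hs, rfl⟩ z hz
      have hz' : ‖z‖ ≤ 2 / 5 := by simpa using hz
      have h := (fam_disc hd hs.1 hs.2 hz').2
      show ‖(wr (fam d s)).eval z‖ < 9 / 10 * ‖(pv (fam d s).2).eval z‖ ^ 2
      rw [fam_Q, norm_one]
      linarith)
  obtain ⟨η₅, e₅, H₅⟩ := rob_sph hK (by
      rintro _ ⟨s, hs, rfl⟩
      exact fam_nd hd hs.1 hs.2) dd_closed.isCompact do_open (by
      rintro _ ⟨s, hs, rfl⟩ z hz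
      exact near_far hd hs.1 hs.2 hz)
  refine ⟨min η₁ (min η₂ (min η₃ (min η₄ η₅))),
    lt_min e₁ (lt_min e₂ (lt_min e₃ (lt_min e₄ e₅))), ?_⟩
  intro s h0 h1 q hq
  have hp : fam d s ∈ fam d '' Set.Icc (0 : ℝ) 1 := ⟨s, ⟨h0, h1⟩, rfl⟩
  simp only [lt_min_iff] at hq
  obtain ⟨q1, q2, q3, q4, q5⟩ := hq
  have G5 := H₅ _ hp q q5
  refine ⟨G5.1, ?_, ?_, ?_, ?_, ?_⟩
  · intro z hz
    exact H₁ _ hp q q1 z (by simpa using hz)
  · intro z hz1 hz2
    exact H₂ _ hp q q2 z ⟨by simpa using hz2, by simpa using hz1⟩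
  · intro z hz
    have h := H₃ _ hp q q3 z (by simpa using hz)
    have h' : ‖(pv q.1).eval z‖ < 2 / 5 * ‖(pv q.2).eval z‖ := h
    have hpos : 0 < ‖(pv q.2).eval z‖ := by
      have := norm_nonneg ((pv q.1).eval z)
      linarith
    rw [norm_div, div_lt_iff₀ hpos]
    exact h'
  · intro z hz
    exact le_of_lt (H₄ _ hp q q4 z (by simpa using hz))
  · intro z hz w hw
    exact (G5.2 z hz w hw).le

end Pool.Agent.H56.DI
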