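import Mathlib
import Pool.Agent.H56.DI.Near
import Pool.Agent.H56.DI.Root

/-!
# [H56 DI NEARB] Critical points near the family at `s = 0` and `s = 1`

PROOFS.
`zero_near`: `rob_C` with `𝒦 = {fam d 0}`, `Z = closedBall 0 20 \ ball 0 (2/5)`, `Ω = {wr z ≠ 0}` (`fam_zero`), and `root_lsc` with
`X = P2 d`, `w = wr`, `x₀ = fam d 0`, `c = 0`, `r = 2/5`, `D = 2 d` (`wr_deg`, `wr_ne`, `wr_cont`, `fam_nd`).
`one_near`: let `c` be as in `fam_one`, `z₁ = P c` (`|z₁| ≥ 9/4`), `z₂ = z₁^d`, `z₃ = z₂^d`, `z₄ = z₃^d`: `|z₂| ≥ (9/4)^2 > 5`, `|z₃| > 25`,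
`|z₄| > 625 > 50`, so `z₄ ∈ DO` and `rm (fam d 1) c = z₁`, `rm (fam d 0) z₁ = z₂` etc. (`fam_zero`, `fam_Q`, `rat_coe_of_ne`).  By
`rob_pt`, applied four times from the end, there are `η` and a neighbourhood `O'` of `(c : Sph)` such that
`rm q₄ (rm q₃ (rm q₂ (rm q₁ z))) ∈ DO` for `z ∈ O'` and `q_i` `η`-close; `O'` contains the image of a ball of radius `r ≤ 1` about
`c`, and by `root_lsc` there is a root of `wr q₁` in it if `q₁` is close to `fam d 1`.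
-/

set_option autoImplicit false

open Filter Topology OnePoint Polynomial
open Pool.Agent.H44.Fatou

namespace Pool.Agent.H56.DI

open Pool.Agent.H84.UC
open Pool.Agent.H56.CF

private theorem NearB_rm {d : ℕ} (s : ℝ) (z : ℂ) :
    rm (fam d s) (z : Sph) = (((pv (fam d s).1).eval z : ℂ) : Sph) := by
  have h1 : (pv (fam d s).2).eval z ≠ 0 := by
    rw [fam_Q]
    exact one_ne_zero
  have h2 := rat_coe_of_ne (P := pv (fam d s).1) h1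
  rw [fam_Q, div_one] at h2
  exact h2

private theorem NearB_lsc {d : ℕ} (hd : 2 ≤ d) {s : ℝ} (h0 : 0 ≤ s) (h1 : s ≤ 1) {c : ℂ}
    (hc : (wr (fam d s)).eval c = 0) {r : ℝ} (hr : 0 < r) :
    ∃ η : ℝ, 0 < η ∧ ∀ q : P2 d, dist q (fam d s) < η →
      ∃ c' : ℂ, (wr q).eval c' = 0 ∧ ‖c' - c‖ < r := by
  have h2 := root_lsc (X := P2 d) (fun q => wr q) (2 * d) wr_deg
    (fun z => (wr_cont d).comp (continuous_id.prodMk continuous_const))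
    (wr_ne (by omega) (fam_nd hd h0 h1)) hc hr
  rw [Metric.eventually_nhds_iff] at h2
  obtain ⟨η, hη, h3⟩ := h2
  exact ⟨η, hη, fun q hq => h3 hq⟩

theorem zero_near {d : ℕ} (hd : 2 ≤ d) : ∃ η : ℝ, 0 < η ∧ ∀ q : P2 d, dist q (fam d 0) < η →
    (∀ z : ℂ, 2 / 5 ≤ ‖z‖ → ‖z‖ ≤ 20 → (wr q).eval z ≠ 0) ∧
    ∃ c : ℂ, ‖c‖ < 2 / 5 ∧ (wr q).eval c = 0 := by
  obtain ⟨hz1, hz2, -⟩ := fam_zero hd
  have hZ : IsCompact (Metric.closedBall (0 : ℂ) 20 ∩ (Metric.ball (0 : ℂ) (2 / 5))ᶜ) :=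
    (isCompact_closedBall 0 20).inter_right Metric.isOpen_ball.isClosed_compl
  have hΩ : IsOpen {q : P2 d × ℂ | (wr q.1).eval q.2 ≠ 0} :=
    isOpen_ne.preimage (wr_cont d)
  obtain ⟨η₁, hη₁, h1⟩ := rob_C (𝒦 := {fam d 0}) isCompact_singleton hZ hΩ (by
    intro p hp z hz
    rw [Set.mem_singleton_iff] at hp
    rw [hp]
    refine hz1 z ?_
    rintro rfl
    apply hz.2
    rw [Metric.mem_ball, dist_self]
    norm_num)
  obtain ⟨η₂, hη₂, h2⟩ := NearB_lsc hd le_rfl zero_le_one hz2 (r := 2 / 5) (by norm_num)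
  refine ⟨min η₁ η₂, lt_min hη₁ hη₂, fun q hq => ⟨fun z hz hz' => ?_, ?_⟩⟩
  · refine h1 (fam d 0) (Set.mem_singleton _) q (hq.trans_le (min_le_left _ _)) z ⟨?_, ?_⟩
    · rw [mem_closedBall_zero_iff]
      exact hz'
    · rw [Set.mem_compl_iff, mem_ball_zero_iff, not_lt]
      exact hz
  · obtain ⟨c, hc1, hc2⟩ := h2 q (hq.trans_le (min_le_right _ _))
    rw [sub_zero] at hc2
    exact ⟨c, hc2, hc1⟩

theorem one_near {d : ℕ} (hd : 2 ≤ d) : ∃ η : ℝ, 0 < η ∧ ∀ q₁ q₂ q₃ q₄ : P2 d,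
    dist q₁ (fam d 1) < η → dist q₂ (fam d 0) < η → dist q₃ (fam d 0) < η →
    dist q₄ (fam d 0) < η →
    ∃ c : ℂ, ‖c‖ ≤ 20 ∧ (wr q₁).eval c = 0 ∧ rm q₄ (rm q₃ (rm q₂ (rm q₁ (c : Sph)))) ∈ DD := by
  obtain ⟨c, hc1, hc2, hc3⟩ := fam_one hd
  obtain ⟨-, -, hpow⟩ := fam_zero hd
  obtain ⟨z₁, hz₁⟩ : ∃ z₁ : ℂ, z₁ = (pv (fam d 1).1).eval c := ⟨_, rfl⟩
  rw [← hz₁] at hc3
  have hnd0 : fam d 0 ∈ ND d := fam_nd hd le_rfl zero_le_one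
  have hnd1 : fam d 1 ∈ ND d := fam_nd hd zero_le_one le_rfl
  have hsq : ∀ t : ℝ, 1 ≤ t → t ^ 2 ≤ t ^ d := fun t ht => pow_le_pow_right₀ ht hd
  have hn2 : 5 ≤ ‖z₁ ^ d‖ := by
    rw [norm_pow]
    have h1 := hsq ‖z₁‖ (by linarith)
    nlinarith
  have hn3 : 25 ≤ ‖(z₁ ^ d) ^ d‖ := by
    rw [norm_pow]
    have h1 := hsq ‖z₁ ^ d‖ (by linarith)
    nlinarith
  have hn4 : 50 < ‖((z₁ ^ d) ^ d) ^ d‖ := by
    rw [norm_pow]
    have h1 := hsq ‖(z₁ ^ d) ^ d‖ (by linarith)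
    nlinarith
  have hrm0 : ∀ z : ℂ, rm (fam d 0) (z : Sph) = ((z ^ d : ℂ) : Sph) := by
    intro z
    rw [NearB_rm, hpow]
  obtain ⟨η₄, hη₄, O₄, hO₄, hm₄, h₄⟩ := rob_pt hnd0 (z := (((z₁ ^ d) ^ d : ℂ) : Sph)) do_open (by
    rw [hrm0]
    intro w hw
    rw [← OnePoint.coe_injective hw]
    exact hn4)
  obtain ⟨η₃, hη₃, O₃, hO₃, hm₃, h₃⟩ := rob_pt hnd0 (z := ((z₁ ^ d : ℂ) : Sph)) hO₄ (by
    rw [hrm0]
    exact hm₄)
  obtain ⟨η₂, hη₂, O₂, hO₂, hm₂, h₂⟩ := rob_pt hnd0 (z := ((z₁ : ℂ) : Sph)) hO₃ (by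
    rw [hrm0]
    exact hm₃)
  obtain ⟨η₁, hη₁, O₁, hO₁, hm₁, h₁⟩ := rob_pt hnd1 (z := ((c : ℂ) : Sph)) hO₂ (by
    rw [NearB_rm, ← hz₁]
    exact hm₂)
  have hpre : IsOpen ((fun z : ℂ => (z : Sph)) ⁻¹' O₁) := hO₁.preimage OnePoint.continuous_coe
  obtain ⟨r, hr, hball⟩ := Metric.isOpen_iff.1 hpre c hm₁
  obtain ⟨η₅, hη₅, h₅⟩ := NearB_lsc hd zero_le_one le_rfl hc2 (r := min r 8)
    (lt_min hr (by norm_num))
  refine ⟨min (min η₁ η₂) (min (min η₃ η₄) η₅),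
    lt_min (lt_min hη₁ hη₂) (lt_min (lt_min hη₃ hη₄) hη₅), ?_⟩
  intro q₁ q₂ q₃ q₄ hq₁ hq₂ hq₃ hq₄
  obtain ⟨c', hc', hcc⟩ := h₅ q₁ (hq₁.trans_le ((min_le_right _ _).trans (min_le_right _ _)))
  have hc'O : (c' : Sph) ∈ O₁ := by
    refine hball ?_
    rw [Metric.mem_ball, dist_eq_norm]
    exact hcc.trans_le (min_le_left _ _)
  refine ⟨c', ?_, hc', ?_⟩
  · have h6 : c' = c + (c' - c) := by ring
    have h7 := norm_add_le c (c' - c)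
    rw [← h6] at h7
    have h8 := hcc.trans_le (min_le_right r 8)
    linarith
  · have hfin : rm q₄ (rm q₃ (rm q₂ (rm q₁ (c' : Sph)))) ∈ DO := by
      refine h₄ q₄ (hq₄.trans_le ((min_le_right _ _).trans ((min_le_left _ _).trans
        (min_le_right _ _)))) _ ?_
      refine h₃ q₃ (hq₃.trans_le ((min_le_right _ _).trans ((min_le_left _ _).trans
        (min_le_left _ _)))) _ ?_
      refine h₂ q₂ (hq₂.trans_le ((min_le_left _ _).trans (min_le_right _ _))) _ ?_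
      exact h₁ q₁ (hq₁.trans_le ((min_le_left _ _).trans (min_le_left _ _))) _ hc'O
    intro w hw
    exact (hfin w hw).le

end Pool.Agent.H56.DI
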