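import Mathlib
import Pool.Agent.H56.DI.NearB
import Pool.Agent.H56.DI.Clopen

/-!
# [H56 DI CONV] Hyperbolicity is not dense over a minimal base which is not totally disconnected
-/

set_option autoImplicit false

open Filter Topology OnePoint Polynomial
open Pool.Agent.H44.Fatou

namespace Pool.Agent.H56.DI

open Pool.Agent.H84.UC
open Pool.Agent.H56.CF

/-- two different points in one component -/
theorem exists_pair {B : Type*} [TopologicalSpace B] (h : ¬ TotallyDisconnectedSpace B) :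
    ∃ x₀ x₁ : B, x₀ ≠ x₁ ∧ x₀ ∈ connectedComponent x₁ := by
  by_contra hcon
  push Not at hcon
  apply h
  rw [totallyDisconnectedSpace_iff_connectedComponent_subsingleton]
  intro x y hy z hz
  by_contra hne
  have hyz : y ∈ connectedComponent z := by
    rw [← connectedComponent_eq hz]
    exact hy
  exact hcon y z hne hyz

theorem converse {B : Type*} [TopologicalSpace B] [CompactSpace B] [T2Space B] [Infinite B]
    {T : B ≃ₜ B} (hT : IsMin T) {d : ℕ} (hd : 2 ≤ d) (hB : ¬ TotallyDisconnectedSpace B) :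
    ∃ p : B → P2 d, Continuous p ∧ (∀ x, p x ∈ ND d) ∧
      (∀ x i, ‖(p x).1 i‖ ≤ 1 ∧ ‖(p x).2 i‖ ≤ 1) ∧
      ∃ η : ℝ, 0 < η ∧ ∀ q : B → P2 d, Continuous q → (∀ x, dist (q x) (p x) < η) →
        ¬ ∃ δ : ℝ, 0 < δ ∧ ∃ C l : ℝ, 0 < l ∧ l < 1 ∧ ∀ (x : B) (c : Sph),
          (¬ ∃ U ∈ 𝓝 c, Set.InjOn (rm (q x)) U) → ∀ (k n : ℕ) (y : Sph),
            dist y (cp (orb (⇑T) (fun x => rm (q x)) x) 0 k c) < δ →
            dist (cp (orb (⇑T) (fun x => rm (q x)) x) k n y)
              (cp (orb (⇑T) (fun x => rm (q x)) x) 0 (k + n) c) ≤ C * l ^ n := by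
  obtain ⟨x₀, x₁, hne, hcc⟩ := exists_pair hB
  obtain ⟨η₁, hη₁, h1⟩ := ok_near hd
  obtain ⟨η₂, hη₂, h2⟩ := zero_near hd
  obtain ⟨η₃, hη₃, h3⟩ := one_near hd
  set F : Set B := {x₁, T x₀, T (T x₀), T (T (T x₀))} with hF
  have hFc : IsClosed F := (Set.toFinite F).isClosed
  have hx₀F : Disjoint F {x₀} := by
    rw [Set.disjoint_singleton_right, hF]
    rintro (h | h | h | h)
    · exact hne h
    · exact min_aper hT x₀ 1 one_pos h.symm
    · exact min_aper hT x₀ 2 two_pos h.symm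
    · exact min_aper hT x₀ 3 three_pos h.symm
  obtain ⟨s, hs0, hs1, hs⟩ := exists_continuous_zero_one_of_isClosed hFc
    (isClosed_singleton (x := x₀)) hx₀F
  have hs1' : s x₀ = 1 := hs1 rfl
  have hs01 : ∀ x, 0 ≤ s x ∧ s x ≤ 1 := fun x => hs x
  refine ⟨fun x => fam d (s x), (fam_cont d).comp s.continuous,
    fun x => fam_nd hd (hs01 x).1 (hs01 x).2, fun x i => fam_le (hs01 x).1 (hs01 x).2 i,
    min η₁ (min η₂ η₃), by positivity, ?_⟩
  intro q hq hclose hhyp
  have hok : ∀ x, Ok (q x) := fun x => h1 (s x) (hs01 x).1 (hs01 x).2 (q x)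
    ((hclose x).trans_le (min_le_left _ _))
  have hc2 : ∀ x, dist (q x) (fam d (s x)) < η₂ := fun x =>
    (hclose x).trans_le ((min_le_right _ _).trans (min_le_left _ _))
  have hc3 : ∀ x, dist (q x) (fam d (s x)) < η₃ := fun x =>
    (hclose x).trans_le ((min_le_right _ _).trans (min_le_right _ _))
  have hzero : ∀ x ∈ F, s x = 0 := fun x hx => hs0 hx
  have hx₁ : s x₁ = 0 := hzero x₁ (by simp [hF])
  have hz := h2 (q x₁) (by have := hc2 x₁; rwa [hx₁] at this)
  have hgood : Good T q := by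
    refine ⟨hq, fun x => (hok x).nd, fun x => (hok x).qne, fun x => (hok x).wne,
      fun x => (hok x).trap, ?_, ?_, hhyp⟩
    · intro x u v hu hv
      exact wr_lip (r := 2 / 5) (κ := 9 / 10) (fun z hz => (hok x).qne z (by linarith))
        (fun z hz => (hok x).wlt z hz) hu hv
    · obtain ⟨c, hc, hc'⟩ := hz.2
      exact ⟨x₁, c, hc.le, hc'⟩
  have hcl := clopen_E hd hT hgood
  set E : Set B := {x | ∀ c : ℂ, ‖c‖ ≤ 20 → (wr (q x)).eval c = 0 → ∃ n, ∃ w : ℂ, ‖w‖ ≤ 2 / 5 ∧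
      cp (orb (⇑T) (fun x => rm (q x)) x) 0 n (c : Sph) = (w : Sph)} with hE
  have hx₁E : x₁ ∈ E := by
    intro c hc hc'
    refine ⟨0, c, ?_, rfl⟩
    by_contra hcon
    exact hz.1 c (not_le.1 hcon).le hc hc'
  have hx₀E : x₀ ∈ E := hcl.connectedComponent_subset hx₁E hcc
  -- the critical point that escapes
  have e1 : s (T x₀) = 0 := hzero _ (by simp [hF])
  have e2 : s (T (T x₀)) = 0 := hzero _ (by simp [hF])
  have e3 : s (T (T (T x₀))) = 0 := hzero _ (by simp [hF])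
  obtain ⟨c, hc, hc', hfar⟩ := h3 (q x₀) (q (T x₀)) (q (T (T x₀))) (q (T (T (T x₀))))
    (by have := hc3 x₀; rwa [hs1'] at this)
    (by have := hc3 (T x₀); rwa [e1] at this)
    (by have := hc3 (T (T x₀)); rwa [e2] at this)
    (by have := hc3 (T (T (T x₀))); rwa [e3] at this)
  obtain ⟨n, w, hw, hnw⟩ := hx₀E c hc hc'
  have hW : ∀ m, ∃ w : ℂ, ‖w‖ ≤ 2 / 5 ∧
      cp (orb (⇑T) (fun x => rm (q x)) x₀) 0 (n + m) (c : Sph) = (w : Sph) := by
    intro m
    induction m with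
    | zero => exact ⟨w, hw, hnw⟩
    | succ m ih =>
      obtain ⟨w', hw', hm⟩ := ih
      refine ⟨_, ((hok ((⇑T)^[n + m] x₀)).trap w' hw').le, ?_⟩
      rw [← Nat.add_assoc, cp_succ, hm]
      show rm (q ((⇑T)^[0 + (n + m)] x₀)) (w' : Sph) = _
      rw [Nat.zero_add]
      exact rat_coe_of_ne ((hok _).qne w' (by linarith))
  have hD : ∀ m, cp (orb (⇑T) (fun x => rm (q x)) x₀) 0 (4 + m) (c : Sph) ∈ DD := by
    intro m
    induction m with
    | zero => exact hfar
    | succ m ih =>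
      rw [← Nat.add_assoc, cp_succ]
      exact (hok _).far _ ih
  obtain ⟨w', hw', h5⟩ := hW 4
  have h6 := hD n
  rw [Nat.add_comm 4 n, h5] at h6
  have h7 := h6 w' rfl
  linarith

end Pool.Agent.H56.DI
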